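import Pool.Agent.N643.AX.Main

set_option autoImplicit false

/-!
# Ordered structures with locally finite rows: labellings and presentations

An ordered structure is given by the atomic types of its decreasing tuples. The row of a tuple `l`
below a point `a` is the map which takes a tuple `t` above `a` to the type of `t ++ l`. If there are
only finitely many rows at each point, then the rows and the maps between them form a family of
finite sets, whose enumerations form an additively coloured weak order with rigid finite blocks.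
-/

namespace Pool.Agent.N643.MN

open Set
open Pool.Agent.N643.AX (SM Par AC cl)
open Pool.Agent.H899R2.VP (Adj)
open Pool.Agent.H566P (lt ac co mk)

/-- An order and the atomic types of decreasing tuples. -/
abbrev YS : Type := (ℕ → ℕ → Bool) × (List ℕ → ℕ → Bool)

/-- the order -/
def yl (y : YS) (a b : ℕ) : Prop := y.1 a b = true

/-- the types -/
def ya (y : YS) (l : List ℕ) (r : ℕ) : Prop := y.2 l r = true

/-- `l` is decreasing and lies below `a` -/
def Bel (y : YS) : ℕ → List ℕ → Prop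
  | _, [] => True
  | a, z :: l => yl y z a ∧ Bel y z l

/-- the row of `l` at `a` -/
def row (y : YS) (a : ℕ) (l : List ℕ) : List ℕ → ℕ → Prop :=
  fun t r => (∀ z ∈ t, ¬ yl y z a) ∧ t ≠ [] ∧ ya y (t ++ l) r

/-- the rows at `a` -/
def rows (y : YS) (a : ℕ) : Set (List ℕ → ℕ → Prop) := {ρ | ∃ l, Bel y a l ∧ row y a l = ρ}

/-- Linearly ordered structures with locally finite rows. -/
structure Yc (y : YS) : Prop where
  irr : ∀ a, ¬ yl y a a
  tr : ∀ a b c, yl y a b → yl y b c → yl y a c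
  tot : ∀ a b, a = b ∨ yl y a b ∨ yl y b a
  dec : ∀ l r, ya y l r → ∃ z l', l = z :: l' ∧ Bel y z l'
  fin : ∀ p q, ∃ n : ℕ, ∀ a, ¬ yl y a p → ¬ yl y q a → (rows y a).encard ≤ n

/-- Labellings of the rows at `a` by `0, ..., n - 1`. -/
structure Lab (y : YS) (a : ℕ) (f : List ℕ → ℕ) (n : ℕ) : Prop where
  out : ∀ l, ¬ Bel y a l → f l = 0
  inj : ∀ l l', Bel y a l → Bel y a l' → (f l = f l' ↔ row y a l = row y a l')
  rng : ∀ i, i < n ↔ ∃ l, Bel y a l ∧ f l = i

/-- Codes of colours. -/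
abbrev CT : Type := List ℕ × List ℕ × ℕ

/-- The colour of two labelled points. -/
structure Col (y : YS) (a : ℕ) (f : List ℕ → ℕ) (b : ℕ) (g : List ℕ → ℕ) (c : CT) : Prop where
  len : ∀ i, i < c.1.length ↔ ∃ l, Bel y a l ∧ f l = i
  F : ∀ l, Bel y a l → c.1.getD (f l) 0 = g l
  G0 : a = b → c.2.1 = []
  Gl : a ≠ b → c.2.1.length = c.1.length
  G : a ≠ b → ∀ l, Bel y a l → c.2.1.getD (f l) 0 = g (a :: l)
  ini : c.2.2 = f []

/-- The unary predicates of a labelled point. -/
def CoP (y : YS) (a : ℕ) (f : List ℕ → ℕ) (k : ℕ) : Prop :=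
  ∃ l, Bel y a l ∧ f l = k.unpair.1 ∧ ya y (a :: l) k.unpair.2

/-- encoding -/
def enc (c : CT) : ℕ := Encodable.encode c

/-- decoding -/
def dec (s : ℕ) : CT := (Encodable.decode s).getD default

theorem dec_enc (c : CT) : dec (enc c) = c := by
  unfold dec enc
  rw [Encodable.encodek]
  rfl

/-- composition of lists -/
def cmp (F2 F1 : List ℕ) : List ℕ := F1.map fun i => F2.getD i 0

/-- The operations on the colours. -/
def PM : Par where
  m := fun s t => enc (cmp (dec t).1 (dec s).1, cmp (dec t).1 (dec s).2.1, (dec s).2.2)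
  u := fun s _ t => enc (cmp (dec t).1 (dec s).1, cmp (dec t).2.1 (dec s).1, (dec s).2.2)
  d := fun _ s t => enc (cmp (dec s).1 (dec t).1, cmp (dec s).1 (dec t).2.1, (dec t).2.2)
  b := fun s _ t _ => enc (cmp (dec t).1 (dec s).1, [], (dec s).2.2)
  k := fun k s _ => if k.unpair.1 < (dec s).1.length then
    Nat.pair ((dec s).1.getD k.unpair.1 0) k.unpair.2 else k

/-- `N` is the structure of all labelled points of `y`: the point `u` of `N` is the point `β u` with
the labelling `Λ u`. -/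
structure Pres (y : YS) (N : SM) (β : ℕ → ℕ) (Λ : ℕ → List ℕ → ℕ) : Prop where
  adj : ∀ u v, Adj N u v ↔ yl y (β u) (β v)
  lab : ∀ u, ∃ n, Lab y (β u) (Λ u) n
  inj : ∀ u v, β u = β v → (∀ l, Λ u l = Λ v l) → u = v
  sur1 : ∀ a, ∃ u, β u = a
  sur2 : ∀ u n, Lab y (β u) (Λ u) n → ∀ p : List ℕ, p.Perm (List.range n) →
    ∃ v, β v = β u ∧ ∀ l, Bel y (β u) l → Λ v l = p.getD (Λ u l) 0
  nl : ∀ u v, ¬ lt N.2 u v
  col : ∀ s u v, ac N.2 s u v ↔ cl N u v = s
  cle : ∀ u v, ¬ yl y (β v) (β u) → Col y (β u) (Λ u) (β v) (Λ v) (dec (cl N u v))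
  can : ∀ u v, enc (dec (cl N u v)) = cl N u v
  sy : ∀ u v, Adj N u v → cl N u v = cl N v u
  co : ∀ k u, co N.2 k u ↔ CoP y (β u) (Λ u) k

section basic

variable {y : YS} {a b d : ℕ} {f g h : List ℕ → ℕ} {n m : ℕ} {c c1 c2 : CT}

theorem Bel_nil : Bel y a [] := trivial

theorem Bel_mono (hy : Yc y) (hab : yl y a b) {l : List ℕ} (h : Bel y a l) : Bel y b l := by
  cases l with
  | nil => trivial
  | cons z l => exact ⟨hy.tr _ _ _ h.1 hab, h.2⟩

theorem Bel_cons (hab : yl y a b) {l : List ℕ} (h : Bel y a l) : Bel y b (a :: l) := ⟨hab, h⟩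

theorem getD_cmp {F2 F1 : List ℕ} {i : ℕ} (h : i < F1.length) :
    (cmp F2 F1).getD i 0 = F2.getD (F1.getD i 0) 0 := by
  unfold cmp
  rw [List.getD_eq_getElem _ _ (by rw [List.length_map]; exact h), List.getElem_map,
    List.getD_eq_getElem F1 0 h]

theorem length_cmp {F2 F1 : List ℕ} : (cmp F2 F1).length = F1.length := List.length_map _

theorem list_ext {F F' : List ℕ} (hl : F.length = F'.length)
    (h : ∀ i, i < F.length → F.getD i 0 = F'.getD i 0) : F = F' := by
  refine List.ext_getElem hl fun i h1 h2 => ?_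
  have := h i h1
  rwa [List.getD_eq_getElem _ _ h1, List.getD_eq_getElem _ _ h2] at this

theorem Col.uniq (h1 : Col y a f b g c1) (h2 : Col y a f b g c2) : c1 = c2 := by
  have hlen : c1.1.length = c2.1.length := by
    apply le_antisymm
    · by_contra hc
      push Not at hc
      exact absurd ((h2.len _).2 ((h1.len _).1 hc)) (lt_irrefl _)
    · by_contra hc
      push Not at hc
      exact absurd ((h1.len _).2 ((h2.len _).1 hc)) (lt_irrefl _)
  have e1 : c1.1 = c2.1 := by
    refine list_ext hlen fun i hi => ?_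
    obtain ⟨l, hl, rfl⟩ := (h1.len i).1 hi
    rw [h1.F l hl, h2.F l hl]
  have e2 : c1.2.1 = c2.2.1 := by
    by_cases hab : a = b
    · rw [h1.G0 hab, h2.G0 hab]
    · refine list_ext ?_ fun i hi => ?_
      · rw [h1.Gl hab, h2.Gl hab, hlen]
      · rw [h1.Gl hab] at hi
        obtain ⟨l, hl, rfl⟩ := (h1.len i).1 hi
        rw [h1.G hab l hl, h2.G hab l hl]
  have e3 : c1.2.2 = c2.2.2 := by rw [h1.ini, h2.ini]
  exact Prod.ext e1 (Prod.ext e2 e3)

theorem Col.lt_len (h1 : Col y a f b g c1) {l : List ℕ} (hl : Bel y a l) :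
    f l < c1.1.length := (h1.len _).2 ⟨l, hl, rfl⟩

/-- composition `a < b ≤ d` -/
theorem Col.comp1 (hy : Yc y) (hab : yl y a b) (hbd : b = d ∨ yl y b d)
    (h1 : Col y a f b g c1) (h2 : Col y b g d h c2) :
    Col y a f d h (cmp c2.1 c1.1, cmp c2.1 c1.2.1, c1.2.2) := by
  have hne : a ≠ b := by
    rintro rfl
    exact hy.irr _ hab
  have had : a ≠ d := by
    rintro rfl
    rcases hbd with rfl | h3
    · exact hy.irr _ hab
    · exact hy.irr _ (hy.tr _ _ _ hab h3)
  refine ⟨fun i => ?_, fun l hl => ?_, fun h3 => absurd h3 had, fun _ => ?_, fun _ l hl => ?_,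
    h1.ini⟩
  · rw [length_cmp]
    exact h1.len i
  · rw [getD_cmp (h1.lt_len hl), h1.F l hl, h2.F l (Bel_mono hy hab hl)]
  · simp only [length_cmp]
    exact h1.Gl hne
  · simp only
    rw [getD_cmp (by rw [h1.Gl hne]; exact h1.lt_len hl), h1.G hne l hl,
      h2.F _ (Bel_cons hab hl)]

/-- composition `a = b < d` -/
theorem Col.comp2 (hy : Yc y) (had : yl y a d) (h1 : Col y a f a g c1)
    (h2 : Col y a g d h c2) :
    Col y a f d h (cmp c2.1 c1.1, cmp c2.2.1 c1.1, c1.2.2) := by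
  have hne : a ≠ d := by
    rintro rfl
    exact hy.irr _ had
  refine ⟨fun i => ?_, fun l hl => ?_, fun h3 => absurd h3 hne, fun _ => ?_, fun _ l hl => ?_,
    h1.ini⟩
  · rw [length_cmp]
    exact h1.len i
  · rw [getD_cmp (h1.lt_len hl), h1.F l hl, h2.F l hl]
  · simp only [length_cmp]
  · simp only
    rw [getD_cmp (h1.lt_len hl), h1.F l hl, h2.G hne l hl]

/-- composition `a = b = d` -/
theorem Col.comp3 (h1 : Col y a f a g c1) (h2 : Col y a g a h c2) :
    Col y a f a h (cmp c2.1 c1.1, [], c1.2.2) := by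
  refine ⟨fun i => ?_, fun l hl => ?_, fun _ => rfl, fun h3 => absurd rfl h3,
    fun h3 => absurd rfl h3, h1.ini⟩
  · rw [length_cmp]
    exact h1.len i
  · rw [getD_cmp (h1.lt_len hl), h1.F l hl, h2.F l hl]

theorem Lab.lt (hf : Lab y a f n) {l : List ℕ} (hl : Bel y a l) : f l < n :=
  (hf.rng _).2 ⟨l, hl, rfl⟩

theorem Lab.pos (hf : Lab y a f n) : 0 < n := lt_of_le_of_lt (Nat.zero_le _) (hf.lt Bel_nil)

theorem Lab.card (hf : Lab y a f n) : (rows y a).encard = n := by
  classical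
  have hex : ∀ i : Fin n, ∃ l, Bel y a l ∧ f l = i := fun i => (hf.rng i).1 i.2
  choose L hL1 hL2 using hex
  have e : rows y a = range fun i : Fin n => row y a (L i) := by
    ext ρ
    constructor
    · rintro ⟨l, hl, rfl⟩
      refine ⟨⟨f l, hf.lt hl⟩, ?_⟩
      exact (hf.inj _ _ (hL1 _) hl).1 (hL2 _)
    · rintro ⟨i, rfl⟩
      exact ⟨L i, hL1 i, rfl⟩
  have hinj : Function.Injective fun i : Fin n => row y a (L i) := by
    intro i j hij
    have h1 := (hf.inj _ _ (hL1 i) (hL1 j)).2 hij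
    rw [hL2, hL2] at h1
    exact Fin.ext h1
  rw [e, ← Set.image_univ, hinj.encard_image]
  simp

theorem Lab.uniq (hf : Lab y a f n) (hg : Lab y a g m) : n = m := by
  have h1 := hf.card
  rw [hg.card] at h1
  exact_mod_cast h1.symm

theorem Lab.ext (hf : Lab y a f n) (hg : Lab y a g m) (h : ∀ l, Bel y a l → f l = g l) :
    ∀ l, f l = g l := by
  intro l
  by_cases hl : Bel y a l
  · exact h l hl
  · rw [hf.out l hl, hg.out l hl]

theorem Col.len_eq (hf : Lab y a f n) (h1 : Col y a f b g c) : c.1.length = n := by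
  apply le_antisymm
  · by_contra hc
    push Not at hc
    obtain h2 := (h1.len n).1 hc
    exact absurd ((hf.rng n).2 h2) (lt_irrefl _)
  · by_contra hc
    push Not at hc
    obtain h2 := (hf.rng _).1 hc
    exact absurd ((h1.len _).2 h2) (lt_irrefl _)

end basic

/-- the set of bounded codes is finite -/
theorem codes_finite (n : ℕ) : {s : ℕ | ∃ c : CT, c.1.length ≤ n ∧ (∀ i ∈ c.1, i < n) ∧
    c.2.1.length ≤ n ∧ (∀ i ∈ c.2.1, i < n) ∧ c.2.2 < n ∧ enc c = s}.Finite := by
  have hL : {l : List ℕ | l.length ≤ n ∧ ∀ i ∈ l, i < n}.Finite := by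
    refine ((List.finite_length_le (Fin n) n).image (List.map Fin.val)).subset ?_
    rintro l ⟨h1, h2⟩
    refine ⟨l.pmap (fun i hi => ⟨i, hi⟩) h2, ?_, ?_⟩
    · show (List.pmap _ l h2).length ≤ n
      rw [List.length_pmap]
      exact h1
    · rw [List.map_pmap]
      simp
  have hP := (hL.prod (hL.prod (Set.finite_lt_nat n))).image enc
  refine hP.subset ?_
  rintro s ⟨c, h1, h2, h3, h4, h5, rfl⟩
  exact ⟨c, ⟨⟨h1, h2⟩, ⟨h3, h4⟩, h5⟩, rfl⟩

section pres

variable {y : YS} {N : SM} {β : ℕ → ℕ} {Λ : ℕ → List ℕ → ℕ}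

theorem Pres.blk (hy : Yc y) (hP : Pres y N β Λ) {u v : ℕ} (h1 : ¬ Adj N u v)
    (h2 : ¬ Adj N v u) : β u = β v := by
  rcases hy.tot (β u) (β v) with h3 | h3 | h3
  · exact h3
  · exact absurd ((hP.adj u v).2 h3) h1
  · exact absurd ((hP.adj v u).2 h3) h2

theorem Pres.cl_eq (hP : Pres y N β Λ) {u v : ℕ} {c : CT} (h : ¬ yl y (β v) (β u))
    (hc : Col y (β u) (Λ u) (β v) (Λ v) c) : cl N u v = enc c := by
  rw [← hP.can u v, (hP.cle u v h).uniq hc]

/-- The structure of the labelled points is an additively coloured weak order. -/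
theorem pres_ac (hy : Yc y) (hP : Pres y N β Λ) : AC PM N where
  irr := fun u h => hy.irr _ ((hP.adj u u).1 h)
  tr := fun u v w h1 h2 => (hP.adj u w).2 (hy.tr _ _ _ ((hP.adj u v).1 h1) ((hP.adj v w).1 h2))
  ntr := by
    intro u v w h
    rw [hP.adj] at h ⊢
    rw [hP.adj]
    rcases hy.tot (β u) (β v) with h3 | h3 | h3
    · exact Or.inr (h3 ▸ h)
    · exact Or.inl h3
    · exact Or.inr (hy.tr _ _ _ h3 h)
  nl := hP.nl
  sy := hP.sy
  col := hP.col
  mul := by
    intro u v w h1 h2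
    have h1' := (hP.adj _ _).1 h1
    have h2' := (hP.adj _ _).1 h2
    have k1 : ¬ yl y (β v) (β u) := fun h => hy.irr _ (hy.tr _ _ _ h h1')
    have k2 : ¬ yl y (β w) (β v) := fun h => hy.irr _ (hy.tr _ _ _ h h2')
    have k3 : ¬ yl y (β w) (β u) := fun h => k1 (hy.tr _ _ _ h2' h)
    exact hP.cl_eq k3 ((hP.cle u v k1).comp1 hy h1' (Or.inr h2') (hP.cle v w k2))
  bu := by
    intro u v w h1 h2 h3
    have e := hP.blk hy h1 h2
    have h3' := (hP.adj _ _).1 h3
    have k1 : ¬ yl y (β v) (β u) := fun h => h2 ((hP.adj _ _).2 h)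
    have k2 : ¬ yl y (β w) (β v) := fun h => hy.irr _ (hy.tr _ _ _ h h3')
    have k3 : ¬ yl y (β w) (β u) := by rw [e]; exact k2
    have c1 := hP.cle u v k1
    have c2 := hP.cle v w k2
    rw [← e] at c1 c2
    refine hP.cl_eq k3 (Col.comp2 hy (by rw [e]; exact h3') c1 c2)
  bd := by
    intro u v w h1 h2 h3
    have e := hP.blk hy h1 h2
    have h3' := (hP.adj _ _).1 h3
    have hwu : Adj N w u := (hP.adj _ _).2 (by rw [e]; exact h3')
    have k1 : ¬ yl y (β u) (β v) := fun h => h1 ((hP.adj _ _).2 h)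
    have k2 : ¬ yl y (β v) (β w) := fun h => hy.irr _ (hy.tr _ _ _ h h3')
    have k3 : ¬ yl y (β u) (β w) := by rw [e]; exact k2
    have c1 := hP.cle v u k1
    have c2 := hP.cle w v k2
    rw [← hP.sy w u hwu, ← hP.sy w v h3]
    exact hP.cl_eq k3 (c2.comp1 hy h3' (Or.inl e.symm) c1)
  bb := by
    intro u v w h1 h2 h3 h4
    have e := hP.blk hy h1 h2
    have e2 := hP.blk hy h4 h3
    have k1 : ¬ yl y (β v) (β u) := fun h => h2 ((hP.adj _ _).2 h)
    have k2 : ¬ yl y (β w) (β v) := fun h => h3 ((hP.adj _ _).2 h)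
    have k3 : ¬ yl y (β w) (β u) := by rw [e]; exact k2
    have c1 := hP.cle u v k1
    have c2 := hP.cle v w k2
    refine hP.cl_eq k3 ?_
    rw [← e2] at c2 ⊢
    rw [← e] at c1 c2 ⊢
    exact c1.comp3 c2
  una := by
    intro u v k h1 h2
    have e := hP.blk hy h1 h2
    have k1 : ¬ yl y (β v) (β u) := fun h => h2 ((hP.adj _ _).2 h)
    have c1 := hP.cle u v k1
    obtain ⟨n, hn⟩ := hP.lab u
    obtain ⟨m, hm⟩ := hP.lab v
    rw [← e] at c1 hm
    rw [hP.co, hP.co, ← e]
    show _ ↔ CoP y (β u) (Λ v) (if k.unpair.1 < (dec (cl N u v)).1.length then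
      Nat.pair ((dec (cl N u v)).1.getD k.unpair.1 0) k.unpair.2 else k)
    by_cases h3 : k.unpair.1 < (dec (cl N u v)).1.length
    · rw [if_pos h3]
      obtain ⟨l, hl, hk⟩ := (c1.len _).1 h3
      unfold CoP
      rw [Nat.unpair_pair]
      simp only
      rw [← hk, c1.F l hl]
      constructor
      · rintro ⟨l', hl', e1, e2⟩
        exact ⟨l', hl', (hm.inj _ _ hl' hl).2 ((hn.inj _ _ hl' hl).1 e1), e2⟩
      · rintro ⟨l', hl', e1, e2⟩
        exact ⟨l', hl', (hn.inj _ _ hl' hl).2 ((hm.inj _ _ hl' hl).1 e1), e2⟩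
    · rw [if_neg h3]
      rw [c1.len_eq hn] at h3
      constructor
      · rintro ⟨l', hl', e1, e2⟩
        rw [← e1] at h3
        exact absurd (hn.lt hl') h3
      · rintro ⟨l', hl', e1, e2⟩
        rw [← e1, hn.uniq hm] at h3
        exact absurd (hm.lt hl') h3
  rig := by
    intro u v w h1 h2 h3 h4 h5
    have e := hP.blk hy h1 h2
    have e2 := hP.blk hy h3 h4
    have k1 : ¬ yl y (β v) (β u) := fun h => h2 ((hP.adj _ _).2 h)
    have k2 : ¬ yl y (β w) (β u) := fun h => h4 ((hP.adj _ _).2 h)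
    have c1 := hP.cle u v k1
    have c2 := hP.cle u w k2
    rw [← h5] at c2
    obtain ⟨n, hn⟩ := hP.lab v
    obtain ⟨m, hm⟩ := hP.lab w
    rw [← e] at c1 hn
    rw [← e2] at c2 hm
    refine hP.inj v w (e.symm.trans e2) (hn.ext hm fun l hl => ?_)
    rw [← c1.F l hl, ← c2.F l hl]
  fin := by
    intro p q
    obtain ⟨n, hn⟩ := hy.fin (β p) (β q)
    refine (codes_finite (n + 1)).subset ?_
    rintro s ⟨u, v, h1, h2, h3, rfl⟩
    have hvu : ¬ yl y (β v) (β u) := fun h => h2 ((hP.adj _ _).2 h)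
    have hup : ¬ yl y (β u) (β p) := fun h => h1 ((hP.adj _ _).2 h)
    have hqv : ¬ yl y (β q) (β v) := fun h => h3 ((hP.adj _ _).2 h)
    have le : ∀ a b c, ¬ yl y b a → ¬ yl y c b → ¬ yl y c a := by
      intro a b c g1 g2 g3
      rcases hy.tot c b with rfl | g4 | g4
      · exact g1 g3
      · exact g2 g4
      · exact g1 (hy.tr _ _ _ g4 g3)
    obtain ⟨nu, hnu⟩ := hP.lab u
    obtain ⟨nv, hnv⟩ := hP.lab v
    have bu : nu ≤ n := by
      have := hn _ hup (le _ _ _ hvu hqv)
      rw [hnu.card] at this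
      exact_mod_cast this
    have bv : nv ≤ n := by
      have := hn _ (le _ _ _ hup hvu) hqv
      rw [hnv.card] at this
      exact_mod_cast this
    have hc := hP.cle u v hvu
    have hlt : ∀ l, Λ v l < n + 1 := by
      intro l
      by_cases hl : Bel y (β v) l
      · have := hnv.lt hl
        omega
      · rw [hnv.out l hl]
        omega
    refine ⟨dec (cl N u v), ?_, ?_, ?_, ?_, ?_, hP.can u v⟩
    · rw [hc.len_eq hnu]
      omega
    · intro i hi
      obtain ⟨j, hj, rfl⟩ := List.getElem_of_mem hi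
      obtain ⟨l, hl, rfl⟩ := (hc.len j).1 hj
      have := hc.F l hl
      rw [List.getD_eq_getElem _ _ hj] at this
      rw [this]
      exact hlt l
    · by_cases h : β u = β v
      · rw [hc.G0 h]
        simp
      · rw [hc.Gl h, hc.len_eq hnu]
        omega
    · intro i hi
      by_cases h : β u = β v
      · rw [hc.G0 h] at hi
        exact absurd hi List.not_mem_nil
      · obtain ⟨j, hj, rfl⟩ := List.getElem_of_mem hi
        have hj' := hj
        rw [hc.Gl h] at hj'
        obtain ⟨l, hl, rfl⟩ := (hc.len j).1 hj'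
        have := hc.G h l hl
        rw [List.getD_eq_getElem _ _ hj] at this
        rw [this]
        exact hlt _
    · rw [hc.ini]
      have := hnu.lt (l := []) Bel_nil
      omega

end pres

end Pool.Agent.N643.MN
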