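import Pool.Agent.N643.MN.Ex

set_option autoImplicit false

/-!
# Decoding
-/

namespace Pool.Agent.N643.MN

open Set
open Pool.Agent.N643.AX (SM Par AC cl piso_raw cl_raw)
open Pool.Agent.H899R2.VP (Adj PIso IsoOn)
open Pool.Agent.H566P (lt ac co mk)

/-- `x` is the least number in its block -/
def Fst (N : SM) (x : ℕ) : Prop := ∀ z < x, Adj N x z ∨ Adj N z x

/-- the least number of the block of `x` -/
noncomputable def mb (N : SM) (x : ℕ) : ℕ := sInf {z | ¬ Adj N x z ∧ ¬ Adj N z x}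

open Classical in
/-- the number of blocks before `x` -/
noncomputable def ct (N : SM) (x : ℕ) : ℕ := Nat.count (Fst N) x

/-- the index of the block of `x` -/
noncomputable def bi (N : SM) (x : ℕ) : ℕ := ct N (mb N x)

/-- the representative of the block with the index `a` -/
noncomputable def rp (N : SM) (a : ℕ) : ℕ := sInf {x | Fst N x ∧ ct N x = a}

/-- the label of the empty list -/
def c0 (s : ℕ) : ℕ := (dec s).2.2

/-- the transition -/
def c1 (s i : ℕ) : ℕ := (dec s).2.1.getD i 0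

/-- the label of `l` at `x` -/
noncomputable def run (N : SM) : List ℕ → ℕ → ℕ
  | [], x => c0 (cl N x x)
  | z :: l, x => c1 (cl N (rp N z) x) (run N l (rp N z))

open Classical in
/-- the order of the decoded structure -/
noncomputable def oD (N : SM) : YS := (fun a b => decide (Adj N (rp N a) (rp N b)), fun _ _ => false)

/-- the types of the decoded structure -/
def aD (N : SM) : List ℕ → ℕ → Prop
  | [], _ => False
  | z :: l, r => Bel (oD N) z l ∧ co N.2 (Nat.pair (run N l (rp N z)) r) (rp N z)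

open Classical in
/-- the decoded structure -/
noncomputable def DN (N : SM) : YS := (fun a b => decide (Adj N (rp N a) (rp N b)),
  fun l r => decide (aD N l r))

open Classical in
/-- the labellings -/
noncomputable def LD (N : SM) (x : ℕ) (l : List ℕ) : ℕ :=
  if Bel (DN N) (bi N x) l then run N l x else 0

theorem Bel_congr {y y' : YS} (h : y.1 = y'.1) (a : ℕ) (l : List ℕ) : Bel y a l ↔ Bel y' a l := by
  induction l generalizing a with
  | nil => exact Iff.rfl
  | cons z l ih =>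
    show (yl y z a ∧ Bel y z l) ↔ (yl y' z a ∧ Bel y' z l)
    unfold yl
    rw [h, ih]

theorem yl_DN (N : SM) (a b : ℕ) : yl (DN N) a b ↔ Adj N (rp N a) (rp N b) := by
  unfold yl DN
  simp only [decide_eq_true_iff]

theorem ya_DN (N : SM) (l : List ℕ) (r : ℕ) : ya (DN N) l r ↔ aD N l r := by
  unfold ya DN
  simp only [decide_eq_true_iff]

theorem Bel_oD (N : SM) (a : ℕ) (l : List ℕ) : Bel (oD N) a l ↔ Bel (DN N) a l :=
  Bel_congr (y := oD N) (y' := DN N) rfl a l

section

variable {y : YS} {N : SM} {β : ℕ → ℕ} {Λ : ℕ → List ℕ → ℕ}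

theorem Pres.blk_iff (hy : Yc y) (hP : Pres y N β Λ) (u v : ℕ) :
    (¬ Adj N u v ∧ ¬ Adj N v u) ↔ β u = β v := by
  constructor
  · exact fun h => hP.blk hy h.1 h.2
  · intro h
    rw [hP.adj, hP.adj, h]
    exact ⟨hy.irr _, hy.irr _⟩

theorem mb_eq (hy : Yc y) (hP : Pres y N β Λ) (u : ℕ) : mb N u = sInf {z | β u = β z} := by
  unfold mb
  congr 1
  ext z
  exact hP.blk_iff hy u z

theorem β_mb (hy : Yc y) (hP : Pres y N β Λ) (u : ℕ) : β (mb N u) = β u := by
  rw [mb_eq hy hP]
  have h : u ∈ {z | β u = β z} := rfl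
  exact (Nat.sInf_mem ⟨u, h⟩ : sInf {z | β u = β z} ∈ {z | β u = β z}).symm

theorem Fst_iff (hy : Yc y) (hP : Pres y N β Λ) (x : ℕ) : Fst N x ↔ ∀ z < x, β x ≠ β z := by
  unfold Fst
  refine forall_congr' fun z => forall_congr' fun _ => ?_
  rw [Ne, ← hP.blk_iff hy x z]
  tauto

theorem Fst_mb (hy : Yc y) (hP : Pres y N β Λ) (u : ℕ) : Fst N (mb N u) := by
  rw [Fst_iff hy hP]
  intro z hz h
  rw [β_mb hy hP] at h
  rw [mb_eq hy hP] at hz
  exact Nat.notMem_of_lt_sInf hz h

theorem mb_congr (hy : Yc y) (hP : Pres y N β Λ) {u v : ℕ} (h : β u = β v) : mb N u = mb N v := by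
  rw [mb_eq hy hP, mb_eq hy hP, h]

theorem mb_Fst (hy : Yc y) (hP : Pres y N β Λ) {x : ℕ} (h : Fst N x) : mb N x = x := by
  have h1 := (Fst_iff hy hP x).1 h
  have h2 := β_mb hy hP x
  rcases lt_trichotomy (mb N x) x with h3 | h3 | h3
  · exact absurd h2.symm (h1 _ h3)
  · exact h3
  · have h4 := (Fst_iff hy hP _).1 (Fst_mb hy hP x) x h3
    exact absurd h2 h4

theorem ct_inj {x z : ℕ} (hx : Fst N x) (hz : Fst N z) (h : ct N x = ct N z) : x = z := by
  classical
  unfold ct at h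
  exact Nat.count_injective hx hz h

theorem bi_inj (hy : Yc y) (hP : Pres y N β Λ) {u v : ℕ} : bi N u = bi N v ↔ β u = β v := by
  constructor
  · intro h
    have h1 := ct_inj (Fst_mb hy hP u) (Fst_mb hy hP v) h
    rw [← β_mb hy hP u, h1, β_mb hy hP]
  · intro h
    unfold bi
    rw [mb_congr hy hP h]

theorem Fst_infinite (hy : Yc y) (hP : Pres y N β Λ) : {x | Fst N x}.Infinite := by
  choose U hU using hP.sur1
  refine Set.infinite_of_injective_forall_mem (f := fun a => mb N (U a)) ?_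
    (fun a => Fst_mb hy hP _)
  intro a b h
  have h1 : β (mb N (U a)) = β (mb N (U b)) := congrArg β h
  rw [β_mb hy hP, β_mb hy hP, hU, hU] at h1
  exact h1

theorem rp_spec (hy : Yc y) (hP : Pres y N β Λ) (i : ℕ) : Fst N (rp N i) ∧ ct N (rp N i) = i := by
  classical
  have h := Fst_infinite hy hP
  have hne : {x | Fst N x ∧ ct N x = i}.Nonempty := by
    refine ⟨Nat.nth (Fst N) i, Nat.nth_mem_of_infinite h i, ?_⟩
    unfold ct
    exact Nat.count_nth_of_infinite h i
  exact Nat.sInf_mem hne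

theorem bi_rp (hy : Yc y) (hP : Pres y N β Λ) (i : ℕ) : bi N (rp N i) = i := by
  obtain ⟨h1, h2⟩ := rp_spec hy hP i
  unfold bi
  rw [mb_Fst hy hP h1, h2]

/-- the block index as a permutation -/
theorem sigma_ex (hy : Yc y) (hP : Pres y N β Λ) :
    ∃ σ : Equiv.Perm ℕ, (∀ u, bi N u = σ (β u)) ∧ ∀ a, β (rp N (σ a)) = a := by
  choose U hU using hP.sur1
  refine ⟨⟨fun a => bi N (U a), fun i => β (rp N i), fun a => ?_, fun i => ?_⟩, fun u => ?_,
    fun a => ?_⟩
  · show β (rp N (bi N (U a))) = a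
    have h1 : bi N (rp N (bi N (U a))) = bi N (U a) := bi_rp hy hP _
    rw [(bi_inj hy hP).1 h1, hU]
  · show bi N (U (β (rp N i))) = i
    rw [(bi_inj hy hP).2 (hU _), bi_rp hy hP]
  · show bi N u = bi N (U (β u))
    exact (bi_inj hy hP).2 (hU _).symm
  · show β (rp N (bi N (U a))) = a
    have h1 : bi N (rp N (bi N (U a))) = bi N (U a) := bi_rp hy hP _
    rw [(bi_inj hy hP).1 h1, hU]

theorem run_eq (hy : Yc y) (hP : Pres y N β Λ) {σ : Equiv.Perm ℕ}
    (hσ : ∀ a, β (rp N (σ a)) = a) (l : List ℕ) (x : ℕ) (hl : Bel y (β x) l) :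
    run N (l.map σ) x = Λ x l := by
  induction l generalizing x with
  | nil =>
    show c0 (cl N x x) = _
    exact (hP.cle x x (hy.irr _)).ini
  | cons z l ih =>
    show c1 (cl N (rp N (σ z)) x) (run N (l.map σ) (rp N (σ z))) = _
    rw [ih (rp N (σ z)) (by rw [hσ]; exact hl.2)]
    have h1 : ¬ yl y (β x) (β (rp N (σ z))) := by
      rw [hσ]
      exact fun h2 => hy.irr _ (hy.tr _ _ _ h2 hl.1)
    have h2 : β (rp N (σ z)) ≠ β x := by
      rw [hσ]
      rintro rfl
      exact hy.irr _ hl.1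
    have h3 := (hP.cle _ _ h1).G h2 l (by rw [hσ]; exact hl.2)
    rw [hσ] at h3
    exact h3

theorem DN_iso (hy : Yc y) (hP : Pres y N β Λ) {σ : Equiv.Perm ℕ}
    (hσ : ∀ a, β (rp N (σ a)) = a) : YI σ y (DN N) := by
  have h1 : ∀ a b, yl (DN N) (σ a) (σ b) ↔ yl y a b := by
    intro a b
    rw [yl_DN, hP.adj, hσ, hσ]
  refine ⟨h1, fun l r => ?_⟩
  rw [ya_DN]
  cases l with
  | nil =>
    constructor
    · exact fun h => h.elim
    · intro h
      obtain ⟨z, l', e, -⟩ := hy.dec _ _ h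
      exact absurd e (by simp)
  | cons z l =>
    show (Bel (oD N) (σ z) (l.map σ) ∧ co N.2 (Nat.pair (run N (l.map σ) (rp N (σ z))) r)
      (rp N (σ z))) ↔ _
    have h2 : ∀ a l, Bel (oD N) (σ a) (l.map σ) ↔ Bel y a l := by
      intro a l
      induction l generalizing a with
      | nil => exact Iff.rfl
      | cons w l ih =>
        show (yl (oD N) (σ w) (σ a) ∧ Bel (oD N) (σ w) (l.map σ)) ↔ _
        rw [ih w]
        have : yl (oD N) (σ w) (σ a) ↔ yl y w a := h1 w a
        rw [this]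
        exact Iff.rfl
    rw [h2]
    constructor
    · rintro ⟨h3, h4⟩
      rw [run_eq hy hP hσ l _ (by rw [hσ]; exact h3), hP.co, hσ] at h4
      obtain ⟨l', h5, h6, h7⟩ := h4
      rw [Nat.unpair_pair] at h6 h7
      simp only at h6 h7
      obtain ⟨n, hn⟩ := hP.lab (rp N (σ z))
      rw [hσ] at hn
      have h8 := congrFun (congrFun ((hn.inj _ _ h5 h3).1 h6) [z]) r
      unfold row at h8
      have h9 : ∀ w ∈ [z], ¬ yl y w z := by
        intro w hw
        rw [List.mem_singleton] at hw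
        rw [hw]
        exact hy.irr z
      rw [eq_iff_iff] at h8
      exact (h8.1 ⟨h9, by simp, h7⟩).2.2
    · intro h3
      obtain ⟨z', l', e, h4⟩ := hy.dec _ _ h3
      obtain ⟨rfl, rfl⟩ := List.cons.inj e
      refine ⟨h4, ?_⟩
      rw [run_eq hy hP hσ l _ (by rw [hσ]; exact h4), hP.co, hσ]
      refine ⟨l, h4, ?_, ?_⟩
      · rw [Nat.unpair_pair]
      · rw [Nat.unpair_pair]
        exact h3

theorem pres_D (hy : Yc y) (hP : Pres y N β Λ) :
    (∃ σ, YI σ y (DN N)) ∧ Pres (DN N) N (bi N) (LD N) := by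
  obtain ⟨σ, h1, h2⟩ := sigma_ex hy hP
  have hI := DN_iso hy hP h2
  refine ⟨⟨σ, hI⟩, ?_⟩
  have e1 : (fun u => σ (β u)) = bi N := funext fun u => (h1 u).symm
  have e2 : (fun u l => Λ u (l.map σ.symm)) = LD N := by
    funext u l
    unfold LD
    rw [h1 u]
    by_cases h3 : Bel (DN N) (σ (β u)) l
    · rw [if_pos h3]
      have h4 := run_eq hy hP h2 (l.map σ.symm) u ((Bel_map' hI _ _).1 h3)
      rw [map_symm'] at h4
      exact h4.symm
    · rw [if_neg h3]
      obtain ⟨n, hn⟩ := hP.lab u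
      exact hn.out _ fun h5 => h3 ((Bel_map' hI _ _).2 h5)
  have h3 := pres_y hI hP
  rw [e1, e2] at h3
  exact h3

end

end Pool.Agent.N643.MN
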