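import Pool.Agent.N643.MN.Vcu

set_option autoImplicit false

/-!
# Structures with a definable linear order
-/

namespace Pool.Agent.N643.MN

open Set MeasureTheory
open Pool.Agent.H533R2.VO (RS RIso VC Dich)
open Pool.Agent.H533R2.VS (US UIso UDich VCu Coan Inv act)
open Pool.Agent.TH425.FF (PCanon PExp)

variable {a : ℕ → ℕ} {k : ℕ}

theorem coan_Vk : Coan (Vk k : RS (bb a) → Prop) := by
  have hP : PolishSpace (RS (bb a)) := Pool.Agent.H533R2.VS.kis_pRS (bb a)
  exact MeasurableSet.analyticSet m_Vk.compl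

theorem sr_iso {x x' : XS a} {σ : Equiv.Perm ℕ} (h : XI σ x x') {y : ℕ} {s s' : Fin k → ℕ}
    (hs : SameRow x k y s s') : SameRow x' k (σ y) (⇑σ ∘ s) (⇑σ ∘ s') := by
  intro j f h1 h2
  have e : ∀ s : Fin k → ℕ, (fun i => Sum.elim (⇑σ ∘ s) id (f i)) =
      ⇑σ ∘ fun i => Sum.elim s id (Sum.map id σ.symm (f i)) := by
    intro s
    funext i
    simp only [Function.comp_apply]
    rcases f i with t | b
    · rfl
    · show b = σ (σ.symm b)
      rw [σ.apply_symm_apply]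
  rw [e, e, h.2, h.2]
  refine hs j (fun i => Sum.map id σ.symm (f i)) ?_ ?_
  · obtain ⟨i, b, hb⟩ := h1
    exact ⟨i, σ.symm b, by rw [hb]; rfl⟩
  · intro i b hb
    cases hf : f i with
    | inl t =>
      rw [hf] at hb
      exact absurd hb (by simp)
    | inr c =>
      rw [hf] at hb
      have hc : σ.symm c = b := Sum.inr.inj hb
      have h3 := h2 i c hf
      rw [← hc, ← h.1, σ.apply_symm_apply]
      exact h3

theorem lf_iso {x x' : XS a} {σ : Equiv.Perm ℕ} (h : XI σ x x') (hx : LocFin k x) :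
    LocFin k x' := by
  intro p q
  obtain ⟨n, hn⟩ := hx (σ.symm p) (σ.symm q)
  have e : ∀ u v, x'.1 u v = x.1 (σ.symm u) (σ.symm v) := by
    intro u v
    rw [← h.1, σ.apply_symm_apply, σ.apply_symm_apply]
  refine ⟨n, fun y h1 h2 => ?_⟩
  rw [e] at h1 h2
  obtain ⟨S, hS⟩ := hn (σ.symm y) h1 h2
  refine ⟨fun m => ⇑σ ∘ S m, fun s hs => ?_⟩
  obtain ⟨m, hm⟩ := hS (⇑σ.symm ∘ s) fun i => by
    have := hs i
    rw [e] at this
    exact this
  refine ⟨m, ?_⟩
  have h3 := sr_iso h hm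
  rw [σ.apply_symm_apply] at h3
  have e2 : ⇑σ ∘ ⇑σ.symm ∘ s = s := by
    funext i
    simp
  rw [e2] at h3
  exact h3

theorem sl_iso {x x' : XS a} {σ : Equiv.Perm ℕ} (h : XI σ x x') (hx : SL x.1) : SL x'.1 := by
  have e : ∀ u v, x'.1 u v = x.1 (σ.symm u) (σ.symm v) := by
    intro u v
    rw [← h.1, σ.apply_symm_apply, σ.apply_symm_apply]
  refine ⟨fun m => ?_, fun m n p => ?_, fun m n => ?_⟩
  · rw [e]
    exact hx.irr _
  · rw [e, e, e]
    exact hx.tr _ _ _
  · rw [e, e]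
    rcases hx.tot (σ.symm m) (σ.symm n) with h1 | h1
    · exact Or.inl (σ.symm.injective h1)
    · exact Or.inr h1

theorem un_iso {z z' : RS (bb a)} (h : RIso z z') : ∃ σ, XI σ (un z) (un z') := by
  obtain ⟨σ, h1⟩ := h
  refine ⟨σ, fun u v => ?_, fun j t => h1 (j + 1) t⟩
  show z' 0 ![σ u, σ v] = z 0 ![u, v]
  rw [← h1 0 ![u, v]]
  have e : (![σ u, σ v] : Fin 2 → ℕ) = ⇑σ ∘ ![u, v] := by
    funext t
    fin_cases t <;> rfl
  exact congrArg (z' 0) e

theorem inv_Vk : Inv (Vk k : RS (bb a) → Prop) := by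
  rintro z z' h ⟨h1, h2⟩
  obtain ⟨σ, h3⟩ := un_iso h
  exact ⟨sl_iso h3 h1, lf_iso h3 h2⟩

/-- definable relations, with parameters -/
structure DefR (D : List ℕ → RS a → ℕ → ℕ → Prop) : Prop where
  meas : ∀ p m n, MeasurableSet {x | D p x m n}
  equi : ∀ p x (σ : Equiv.Perm ℕ) m n, D (p.map σ) (act σ x) (σ m) (σ n) ↔ D p x m n

open Classical in
/-- expansion by a definable relation -/
noncomputable def cD (D : List ℕ → RS a → ℕ → ℕ → Prop) (p : List ℕ) (x : RS a) : RS (bb a) :=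
  fun i => match i with
    | 0 => fun v => decide (D p x (v (0 : Fin 2)) (v (1 : Fin 2)))
    | j + 1 => x j

/-- forget the first relation -/
def dD (_ : List ℕ) (z : RS (bb a)) : RS a := fun j => z (j + 1)

variable {D : List ℕ → RS a → ℕ → ℕ → Prop}

theorem pcanon_D (hD : DefR D) : PCanon (cD D) (dD : List ℕ → RS (bb a) → RS a) := by
  classical
  refine ⟨fun p => ?_, fun p => ?_, fun σ p x => ?_, fun σ p z => rfl⟩
  · refine measurable_pi_lambda _ fun i => ?_
    cases i with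
    | zero =>
      refine measurable_pi_lambda _ fun v => measurable_to_bool ?_
      have e : (fun x : RS a => cD D p x 0 v) ⁻¹' {true} =
          {x | D p x (v (0 : Fin 2)) (v (1 : Fin 2))} := by
        ext x
        exact decide_eq_true_iff
      rw [e]
      exact hD.meas p _ _
    | succ j => exact measurable_pi_apply j
  · exact measurable_pi_lambda _ fun j => measurable_pi_apply (j + 1)
  · funext i v
    cases i with
    | zero =>
      show decide (D (p.map σ) (act σ x) (v (0 : Fin 2)) (v (1 : Fin 2))) =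
        decide (D p x (σ.symm (v (0 : Fin 2))) (σ.symm (v (1 : Fin 2))))
      refine decide_eq_decide.2 ?_
      rw [← hD.equi p x σ, σ.apply_symm_apply, σ.apply_symm_apply]
    | succ j => rfl

/-- the class -/
def Wk (D : ℕ → List ℕ → RS a → ℕ → ℕ → Prop) (k : ℕ) (x : RS a) : Prop :=
  ∃ i p, Vk k (cD (D i) p x)

/-- a larger class -/
def Wc (D : ℕ → List ℕ → RS a → ℕ → ℕ → Prop) (k : ℕ) (x : RS a) : Prop :=
  ∃ i, PExp (cD (D i)) (dD : List ℕ → RS (bb a) → RS a) (Vk k) x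

theorem vcu_Wc {D : ℕ → List ℕ → RS a → ℕ → ℕ → Prop} (hD : ∀ i, DefR (D i))
    (ha : ∀ j, a j ≤ k + 1) : VCu (Wc D k) :=
  Pool.Agent.TH425.FF.cun_vcu _
    (fun i => Pool.Agent.TH425.FF.pexp_vcu (pcanon_D (hD i)) (vcu_Vk ha) coan_Vk inv_Vk)
    (fun i => Pool.Agent.TH425.FF.pexp_coan (pcanon_D (hD i)) coan_Vk)
    (fun i => Pool.Agent.TH425.FF.pexp_inv (pcanon_D (hD i)) inv_Vk)

/-- **The dichotomy.** -/
theorem vc_Wk {D : ℕ → List ℕ → RS a → ℕ → ℕ → Prop} (hD : ∀ i, DefR (D i))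
    (ha : ∀ j, a j ≤ k + 1) : VC (Wk D k) := by
  intro B hB hi hV
  refine Pool.Agent.H533R2.VS.vs_plain _ _ (vcu_Wc hD ha) B hB hi fun x hx => ?_
  obtain ⟨i, p, h⟩ := hV x hx
  exact ⟨i, p, h, rfl⟩

end Pool.Agent.N643.MN
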