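import Pool.Agent.N643.MN.Main

set_option autoImplicit false

/-!
# Structures with relations of bounded arity
-/

namespace Pool.Agent.N643.MN

open Set

/-- Structures on `ℕ`: a binary relation and relations of arity `a j`. -/
abbrev XS (a : ℕ → ℕ) : Type := (ℕ → ℕ → Bool) × (∀ j, (Fin (a j) → ℕ) → Bool)

variable {a : ℕ → ℕ}

/-- isomorphisms -/
def XI (σ : Equiv.Perm ℕ) (x x' : XS a) : Prop :=
  (∀ u v, x'.1 (σ u) (σ v) = x.1 u v) ∧ ∀ j t, x'.2 j (σ ∘ t) = x.2 j t

/-- the tuple with the pattern `F` -/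
def ev (m : ℕ) (F l : List ℕ) : Fin m → ℕ := fun i => l.getD (F.getD i 0) 0

/-- decoding of the names of the atomic formulas -/
def dr (r : ℕ) : ℕ × List ℕ := Denumerable.ofNat (ℕ × List ℕ) r

/-- encoding of the names of the atomic formulas -/
def er (q : ℕ × List ℕ) : ℕ := Encodable.encode q

theorem dr_er (q : ℕ × List ℕ) : dr (er q) = q := Denumerable.ofNat_encode q

theorem er_dr (r : ℕ) : er (dr r) = r := Denumerable.encode_ofNat r

/-- the order as an ordered structure -/
def xo (x : XS a) : YS := (x.1, fun _ _ => false)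

/-- the atomic type of a decreasing tuple -/
def aE (x : XS a) (l : List ℕ) (r : ℕ) : Prop :=
  (∃ z l', l = z :: l' ∧ Bel (xo x) z l') ∧ (dr r).2.length = a (dr r).1 ∧
  (∀ i ∈ (dr r).2, i < l.length) ∧
  ((∀ i < l.length, i ∈ (dr r).2) ∨ ((dr r).2 = [] ∧ l.length = 1)) ∧
  x.2 (dr r).1 (ev (a (dr r).1) (dr r).2 l) = true

open Classical in
/-- encoding -/
noncomputable def EX (x : XS a) : YS := (x.1, fun l r => decide (aE x l r))

open Classical in
/-- decoding -/
noncomputable def DX (a : ℕ → ℕ) (y : YS) : XS a :=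
  (y.1, fun j t => decide (∃ l F : List ℕ, F.length = a j ∧ (∀ i ∈ F, i < l.length) ∧
    ev (a j) F l = t ∧ ya y l (er (j, F))))

theorem ya_EX (x : XS a) (l : List ℕ) (r : ℕ) : ya (EX x) l r ↔ aE x l r := by
  unfold ya EX
  simp only [decide_eq_true_iff]

theorem DX_iff (y : YS) (j : ℕ) (t : Fin (a j) → ℕ) : (DX a y).2 j t = true ↔
    ∃ l F : List ℕ, F.length = a j ∧ (∀ i ∈ F, i < l.length) ∧ ev (a j) F l = t ∧
      ya y l (er (j, F)) := by
  unfold DX
  simp only [decide_eq_true_iff]

theorem getD_mem {F : List ℕ} {i : ℕ} (h : i < F.length) : F.getD i 0 ∈ F := by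
  rw [List.getD_eq_getElem _ _ h]
  exact List.getElem_mem h

theorem ev_map {σ : Equiv.Perm ℕ} {m : ℕ} {F l : List ℕ} (hF : F.length = m)
    (h : ∀ i ∈ F, i < l.length) : ev m F (l.map σ) = σ ∘ ev m F l := by
  funext i
  have h1 : F.getD i 0 < l.length := h _ (getD_mem (by rw [hF]; exact i.2))
  show (l.map σ).getD (F.getD i 0) 0 = σ (l.getD (F.getD i 0) 0)
  rw [List.getD_eq_getElem _ _ (by rw [List.length_map]; exact h1), List.getElem_map,
    List.getD_eq_getElem _ _ h1]

theorem Bel_xo_map {σ : Equiv.Perm ℕ} {x x' : XS a} (h : XI σ x x') (b : ℕ) (l : List ℕ) :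
    Bel (xo x') (σ b) (l.map σ) ↔ Bel (xo x) b l := by
  induction l generalizing b with
  | nil => exact Iff.rfl
  | cons z l ih =>
    show (x'.1 (σ z) (σ b) = true ∧ Bel (xo x') (σ z) (l.map σ)) ↔
      (x.1 z b = true ∧ Bel (xo x) z l)
    rw [h.1, ih]

theorem EX_iso {σ : Equiv.Perm ℕ} {x x' : XS a} (h : XI σ x x') : YI σ (EX x) (EX x') := by
  refine ⟨fun u v => ?_, fun l r => ?_⟩
  · show x'.1 (σ u) (σ v) = true ↔ x.1 u v = true
    rw [h.1]
  · rw [ya_EX, ya_EX]
    unfold aE
    rw [List.length_map]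
    refine and_congr ?_ (and_congr_right fun h1 => and_congr_right fun h2 =>
      and_congr_right fun _ => ?_)
    · constructor
      · rintro ⟨z, l', e, h1⟩
        cases l with
        | nil => exact absurd e (by simp)
        | cons w l =>
          rw [List.map_cons] at e
          obtain ⟨rfl, rfl⟩ := List.cons.inj e
          exact ⟨w, l, rfl, (Bel_xo_map h w l).1 h1⟩
      · rintro ⟨z, l', rfl, h1⟩
        exact ⟨σ z, l'.map σ, rfl, (Bel_xo_map h z l').2 h1⟩
    · rw [ev_map h1 h2, h.2]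

theorem DX_iso {σ : Equiv.Perm ℕ} {y y' : YS} (h : YI σ y y') : XI σ (DX a y) (DX a y') := by
  have key : ∀ {σ : Equiv.Perm ℕ} {y y' : YS}, YI σ y y' → ∀ j t,
      (DX a y).2 j t = true → (DX a y').2 j (σ ∘ t) = true := by
    intro σ y y' h j t h1
    rw [DX_iff] at h1 ⊢
    obtain ⟨l, F, h2, h3, h4, h5⟩ := h1
    refine ⟨l.map σ, F, h2, ?_, ?_, (h.2 _ _).2 h5⟩
    · rw [List.length_map]
      exact h3
    · rw [ev_map h2 h3, h4]
  refine ⟨fun u v => ?_, fun j t => ?_⟩
  · exact Bool.eq_iff_iff.2 (h.1 u v)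
  · rw [Bool.eq_iff_iff]
    constructor
    · intro h1
      have h2 := key h.symm j (σ ∘ t) h1
      have e : σ.symm ∘ σ ∘ t = t := by
        funext i
        simp
      rwa [e] at h2
    · exact key h j t

/-- the transported structure is determined -/
theorem YI_uniq {σ : Equiv.Perm ℕ} {y y' y'' : YS} (h : YI σ y y') (h' : YI σ y y'') :
    y' = y'' := by
  refine Prod.ext ?_ ?_
  · funext u v
    have h1 := h.1 (σ.symm u) (σ.symm v)
    have h2 := h'.1 (σ.symm u) (σ.symm v)
    rw [σ.apply_symm_apply, σ.apply_symm_apply] at h1 h2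
    exact Bool.eq_iff_iff.2 (h1.trans h2.symm)
  · funext l r
    have h1 := h.2 (l.map σ.symm) r
    have h2 := h'.2 (l.map σ.symm) r
    rw [map_symm'] at h1 h2
    exact Bool.eq_iff_iff.2 (h1.trans h2.symm)

/-- strict linear orders -/
structure SL (o : ℕ → ℕ → Bool) : Prop where
  irr : ∀ u, o u u = false
  tr : ∀ u v w, o u v = true → o v w = true → o u w = true
  tot : ∀ u v, u = v ∨ o u v = true ∨ o v u = true

theorem SL.nn {o : ℕ → ℕ → Bool} (h : SL o) {u : ℕ} : ¬ o u u = true := by
  rw [h.irr]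
  simp

section sorted

variable {x : XS a}

theorem Bel_lt (hx : SL x.1) {b : ℕ} {l : List ℕ} (h : Bel (xo x) b l) :
    ∀ v ∈ l, x.1 v b = true := by
  induction l generalizing b with
  | nil => exact fun v hv => absurd hv List.not_mem_nil
  | cons z l ih =>
    intro v hv
    rcases List.mem_cons.1 hv with rfl | hv
    · exact h.1
    · exact hx.tr _ _ _ (ih h.2 v hv) h.1

theorem Bel_nodup (hx : SL x.1) {b : ℕ} {l : List ℕ} (h : Bel (xo x) b l) :
    (b :: l).Nodup := by
  induction l generalizing b with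
  | nil => exact List.nodup_singleton b
  | cons z l ih =>
    refine List.nodup_cons.2 ⟨fun hb => ?_, ih h.2⟩
    exact hx.nn (Bel_lt hx h b hb)

theorem insert_Bel (hx : SL x.1) {v : ℕ} (l : List ℕ) : ∀ b, Bel (xo x) b l → x.1 v b = true →
    ∃ l2, Bel (xo x) b l2 ∧ ∀ w, w ∈ l2 ↔ w = v ∨ w ∈ l := by
  induction l with
  | nil => exact fun b _ h => ⟨[v], ⟨h, trivial⟩, fun w => by simp⟩
  | cons z l ih =>
    intro b hb hv
    rcases hx.tot v z with rfl | h1 | h1
    · exact ⟨v :: l, hb, fun w => by simp⟩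
    · obtain ⟨l2, h2, h3⟩ := ih z hb.2 h1
      refine ⟨z :: l2, ⟨hb.1, h2⟩, fun w => ?_⟩
      rw [List.mem_cons, List.mem_cons, h3]
      tauto
    · exact ⟨v :: z :: l, ⟨hv, h1, hb.2⟩, fun w => by simp⟩

theorem sorted_ex (hx : SL x.1) (s : Finset ℕ) (hs : s.Nonempty) :
    ∃ z l, Bel (xo x) z l ∧ ∀ w, w ∈ z :: l ↔ w ∈ s := by
  classical
  induction hs using Finset.Nonempty.cons_induction with
  | singleton v => exact ⟨v, [], trivial, fun w => by simp⟩
  | cons v s h hs ih =>
    obtain ⟨z, l, h1, h2⟩ := ih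
    rcases hx.tot v z with rfl | h3 | h3
    · exact absurd ((h2 v).1 (by simp)) h
    · obtain ⟨l2, h4, h5⟩ := insert_Bel hx l z h1 h3
      refine ⟨z, l2, h4, fun w => ?_⟩
      rw [Finset.mem_cons, ← h2, List.mem_cons, List.mem_cons, h5]
      tauto
    · refine ⟨v, z :: l, ⟨h3, h1⟩, fun w => ?_⟩
      rw [Finset.mem_cons, ← h2, List.mem_cons]

theorem DX_EX (hx : SL x.1) : DX a (EX x) = x := by
  classical
  refine Prod.ext rfl ?_
  funext j t
  rw [Bool.eq_iff_iff, DX_iff]
  constructor
  · rintro ⟨l, F, h1, h2, h3, h4⟩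
    rw [ya_EX] at h4
    obtain ⟨-, -, -, -, h5⟩ := h4
    rw [dr_er] at h5
    simp only at h5
    rw [h3] at h5
    exact h5
  · intro h
    by_cases ha : a j = 0
    · refine ⟨[0], [], ha.symm, fun i hi => absurd hi List.not_mem_nil, ?_, ?_⟩
      · funext i
        exact absurd i.2 (by omega)
      · rw [ya_EX]
        refine ⟨⟨0, [], rfl, trivial⟩, ?_, ?_, ?_, ?_⟩
        · rw [dr_er]
          exact ha.symm
        · rw [dr_er]
          exact fun i hi => absurd hi List.not_mem_nil
        · rw [dr_er]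
          exact Or.inr ⟨rfl, rfl⟩
        · rw [dr_er]
          have e : ev (a j) [] [0] = t := by
            funext i
            exact absurd i.2 (by omega)
          simp only [e]
          exact h
    · have hne : (Finset.univ.image t).Nonempty := by
        refine Finset.image_nonempty.2 ⟨⟨0, by omega⟩, Finset.mem_univ _⟩
      obtain ⟨z, l, h1, h2⟩ := sorted_ex hx _ hne
      have hnd : (z :: l).Nodup := Bel_nodup hx h1
      have hmem : ∀ i, t i ∈ z :: l := fun i =>
        (h2 _).2 (Finset.mem_image_of_mem _ (Finset.mem_univ i))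
      have hF1 : (List.ofFn fun i : Fin (a j) => (z :: l).idxOf (t i)).length = a j :=
        List.length_ofFn
      have hF2 : ∀ i ∈ List.ofFn fun i : Fin (a j) => (z :: l).idxOf (t i),
          i < (z :: l).length := by
        intro i hi
        obtain ⟨k, rfl⟩ := (List.mem_ofFn' _ _).1 hi
        exact List.idxOf_lt_length_iff.2 (hmem k)
      have hF3 : ev (a j) (List.ofFn fun i : Fin (a j) => (z :: l).idxOf (t i)) (z :: l) = t := by
        funext i
        show (z :: l).getD ((List.ofFn fun i : Fin (a j) => (z :: l).idxOf (t i)).getD i 0) 0 = _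
        have hi : (i : ℕ) < (List.ofFn fun i : Fin (a j) => (z :: l).idxOf (t i)).length := by
          rw [hF1]
          exact i.2
        rw [List.getD_eq_getElem _ _ hi, List.getElem_ofFn]
        rw [List.getD_eq_getElem _ _ (List.idxOf_lt_length_iff.2 (hmem _)),
          List.getElem_idxOf]
      refine ⟨z :: l, List.ofFn fun i : Fin (a j) => (z :: l).idxOf (t i), hF1, hF2, hF3, ?_⟩
      rw [ya_EX]
      unfold aE
      rw [dr_er]
      refine ⟨⟨z, l, rfl, h1⟩, hF1, hF2, Or.inl fun i hi => ?_, ?_⟩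
      · have h3 : (z :: l)[i] ∈ Finset.univ.image t := (h2 _).1 (List.getElem_mem hi)
        obtain ⟨k, -, hk⟩ := Finset.mem_image.1 h3
        refine (List.mem_ofFn' _ _).2 ⟨k, ?_⟩
        show (z :: l).idxOf (t k) = i
        rw [hk]
        exact hnd.idxOf_getElem i hi
      · show x.2 j (ev (a j) _ (z :: l)) = true
        rw [hF3]
        exact h

end sorted

end Pool.Agent.N643.MN
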