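import Pool.Agent.N643.MN.Tr

set_option autoImplicit false

/-!
# Existence of presentations
-/

namespace Pool.Agent.N643.MN

open Set
open Pool.Agent.N643.AX (SM Par AC cl piso_raw cl_raw)
open Pool.Agent.H899R2.VP (Adj PIso IsoOn)
open Pool.Agent.H566P (lt ac co mk)
open Pool.Agent.Y560.TG (lt_mk ac_mk co_mk)

variable {y : YS} {a b : ℕ} {f g : List ℕ → ℕ} {n m : ℕ}

theorem Yc.le_trans (hy : Yc y) {p q r : ℕ} (h1 : ¬ yl y q p) (h2 : ¬ yl y r q) : ¬ yl y r p := by
  intro h3
  rcases hy.tot r q with rfl | h4 | h4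
  · exact h1 h3
  · exact h2 h4
  · exact h1 (hy.tr _ _ _ h4 h3)

theorem row_res (hy : Yc y) (hab : yl y a b) {l l' : List ℕ} (h : row y a l = row y a l') :
    row y b l = row y b l' := by
  funext t r
  have e := congrFun (congrFun h t) r
  unfold row at e ⊢
  have k : (∀ z ∈ t, ¬ yl y z b) → ∀ z ∈ t, ¬ yl y z a := fun h1 z hz h2 =>
    h1 z hz (hy.tr _ _ _ h2 hab)
  rw [eq_iff_iff] at e ⊢
  constructor
  · rintro ⟨h1, h2, h3⟩
    exact ⟨h1, h2, (e.1 ⟨k h1, h2, h3⟩).2.2⟩
  · rintro ⟨h1, h2, h3⟩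
    exact ⟨h1, h2, (e.2 ⟨k h1, h2, h3⟩).2.2⟩

theorem row_psh (hy : Yc y) (hab : yl y a b) {l l' : List ℕ} (h : row y a l = row y a l') :
    row y b (a :: l) = row y b (a :: l') := by
  funext t r
  have e := congrFun (congrFun h (t ++ [a])) r
  unfold row at e ⊢
  have k : (∀ z ∈ t, ¬ yl y z b) → ∀ z ∈ t ++ [a], ¬ yl y z a := by
    intro h1 z hz h2
    rcases List.mem_append.1 hz with h3 | h3
    · exact h1 z h3 (hy.tr _ _ _ h2 hab)
    · rw [List.mem_singleton] at h3
      rw [h3] at h2
      exact hy.irr _ h2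
  have k2 : t ++ [a] ≠ [] := by simp
  have k3 : ∀ l : List ℕ, (t ++ [a]) ++ l = t ++ a :: l := fun l => by simp
  rw [k3, k3] at e
  rw [eq_iff_iff] at e ⊢
  constructor
  · rintro ⟨h1, h2, h3⟩
    exact ⟨h1, h2, (e.1 ⟨k h1, k2, h3⟩).2.2⟩
  · rintro ⟨h1, h2, h3⟩
    exact ⟨h1, h2, (e.2 ⟨k h1, k2, h3⟩).2.2⟩

theorem rows_finite (hy : Yc y) (a : ℕ) : (rows y a).Finite := by
  obtain ⟨n, hn⟩ := hy.fin a a
  exact Set.finite_of_encard_le_coe (hn a (hy.irr a) (hy.irr a))

theorem lab_ex (hy : Yc y) (a : ℕ) : ∃ f n, Lab y a f n := by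
  classical
  have hfin := rows_finite hy a
  have : Fintype (rows y a) := hfin.fintype
  let e := Fintype.equivFin (rows y a)
  refine ⟨fun l => if h : Bel y a l then (e ⟨row y a l, l, h, rfl⟩ : ℕ) else 0,
    Fintype.card (rows y a), ?_, ?_, ?_⟩
  · intro l hl
    exact dif_neg hl
  · intro l l' hl hl'
    simp only [dif_pos hl, dif_pos hl']
    rw [Fin.val_inj, e.injective.eq_iff, Subtype.mk_eq_mk]
  · intro i
    constructor
    · intro hi
      obtain ⟨l, hl, hl2⟩ := (e.symm ⟨i, hi⟩).2
      refine ⟨l, hl, ?_⟩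
      simp only [dif_pos hl]
      have : (⟨row y a l, l, hl, rfl⟩ : rows y a) = e.symm ⟨i, hi⟩ := Subtype.ext hl2
      rw [this, e.apply_symm_apply]
    · rintro ⟨l, hl, rfl⟩
      simp only [dif_pos hl]
      exact Fin.is_lt _

theorem col_ex (hy : Yc y) (hf : Lab y a f n) (hg : Lab y b g m) (h : ¬ yl y b a) :
    ∃ c, Col y a f b g c := by
  classical
  rcases hy.tot a b with rfl | hab | hab
  · obtain ⟨p, hp, hp2⟩ := lab_perm hf hg
    refine ⟨(p, [], f []), fun i => ?_, fun l hl => (hp2 l hl).symm, fun _ => rfl,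
      fun h1 => absurd rfl h1, fun h1 => absurd rfl h1, rfl⟩
    simp only
    rw [hp.length_eq, List.length_range]
    exact hf.rng i
  · have hne : a ≠ b := by
      rintro rfl
      exact hy.irr _ hab
    have hex : ∀ i, ∃ l, i < n → Bel y a l ∧ f l = i := by
      intro i
      by_cases hi : i < n
      · obtain ⟨l, hl⟩ := (hf.rng i).1 hi
        exact ⟨l, fun _ => hl⟩
      · exact ⟨[], fun h => absurd h hi⟩
    choose L hL using hex
    have hr : ∀ l, Bel y a l → row y a (L (f l)) = row y a l := by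
      intro l hl
      obtain ⟨h1, h2⟩ := hL (f l) (hf.lt hl)
      exact (hf.inj _ _ h1 hl).1 h2
    have hB : ∀ l, Bel y a l → Bel y a (L (f l)) := fun l hl => (hL (f l) (hf.lt hl)).1
    refine ⟨((List.range n).map fun i => g (L i), (List.range n).map fun i => g (a :: L i), f []),
      fun i => ?_, fun l hl => ?_, fun h1 => absurd h1 hne, fun _ => ?_, fun _ l hl => ?_, rfl⟩
    · simp only [List.length_map, List.length_range]
      exact hf.rng i
    · simp only
      rw [List.getD_eq_getElem _ _ (by rw [List.length_map, List.length_range]; exact hf.lt hl),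
        List.getElem_map, List.getElem_range]
      exact (hg.inj _ _ (Bel_mono hy hab (hB l hl)) (Bel_mono hy hab hl)).2
        (row_res hy hab (hr l hl))
    · simp only [List.length_map, List.length_range]
    · simp only
      rw [List.getD_eq_getElem _ _ (by rw [List.length_map, List.length_range]; exact hf.lt hl),
        List.getElem_map, List.getElem_range]
      exact (hg.inj _ _ (Bel_cons hab (hB l hl)) (Bel_cons hab hl)).2
        (row_psh hy hab (hr l hl))
  · exact absurd hab h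

/-- the labelled points -/
def TP (y : YS) : Type := {p : ℕ × (List ℕ → ℕ) // ∃ n, Lab y p.1 p.2 n}

theorem tp_countable (hy : Yc y) : Countable (TP y) := by
  classical
  choose F n hF using lab_ex hy
  let φ : ℕ × List ℕ → ℕ × (List ℕ → ℕ) := fun q =>
    (q.1, fun l => if Bel y q.1 l then q.2.getD (F q.1 l) 0 else 0)
  have hsub : {p : ℕ × (List ℕ → ℕ) | ∃ n, Lab y p.1 p.2 n} ⊆ range φ := by
    rintro ⟨a, g⟩ ⟨m, hm⟩
    obtain ⟨p, -, hp⟩ := lab_perm (hF a) hm
    refine ⟨(a, p), ?_⟩
    refine Prod.ext rfl ?_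
    funext l
    by_cases hl : Bel y a l
    · show (if Bel y a l then p.getD (F a l) 0 else 0) = g l
      rw [if_pos hl, ← hp l hl]
    · show (if Bel y a l then p.getD (F a l) 0 else 0) = g l
      rw [if_neg hl]
      exact (hm.out l hl).symm
  exact ((Set.countable_range φ).mono hsub).to_subtype

theorem pres_ex (hy : Yc y) : ∃ N β Λ, Pres y N β Λ := by
  classical
  have hc := tp_countable hy
  choose F n hF using lab_ex hy
  have hinf : Infinite (TP y) := Infinite.of_injective
    (fun a => (⟨(a, F a), n a, hF a⟩ : TP y)) fun a b h => by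
      have := congrArg (fun p : TP y => p.1.1) h
      exact this
  obtain ⟨hD⟩ := nonempty_denumerable (TP y)
  let θ : ℕ ≃ TP y := (Denumerable.eqv (TP y)).symm
  let β : ℕ → ℕ := fun u => (θ u).1.1
  let Λ : ℕ → List ℕ → ℕ := fun u => (θ u).1.2
  have hΛ : ∀ u, ∃ n, Lab y (β u) (Λ u) n := fun u => (θ u).2
  have hcol : ∀ u v, ∃ c, ¬ yl y (β v) (β u) → Col y (β u) (Λ u) (β v) (Λ v) c := by
    intro u v
    by_cases h : yl y (β v) (β u)
    · exact ⟨default, fun h1 => absurd h h1⟩
    · obtain ⟨n, hn⟩ := hΛ u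
      obtain ⟨m, hm⟩ := hΛ v
      obtain ⟨c, hc⟩ := col_ex hy hn hm h
      exact ⟨c, fun _ => hc⟩
  choose κ hκ using hcol
  let κ' : ℕ → ℕ → CT := fun u v => if yl y (β v) (β u) then κ v u else κ u v
  let N : SM := (fun u v => decide (yl y (β u) (β v)),
    mk (fun _ _ => False) (fun s u v => enc (κ' u v) = s) (fun k u => CoP y (β u) (Λ u) k))
  have hac : ∀ s u v, ac N.2 s u v ↔ enc (κ' u v) = s := fun s u v =>
    ac_mk (fun _ _ => False) (fun s u v => enc (κ' u v) = s)
      (fun k u => CoP y (β u) (Λ u) k) s u v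
  have hlt : ∀ u v, lt N.2 u v ↔ False := fun u v =>
    lt_mk (fun _ _ => False) (fun s u v => enc (κ' u v) = s)
      (fun k u => CoP y (β u) (Λ u) k) u v
  have hco : ∀ k u, co N.2 k u ↔ CoP y (β u) (Λ u) k := fun k u =>
    co_mk (fun _ _ => False) (fun s u v => enc (κ' u v) = s)
      (fun k u => CoP y (β u) (Λ u) k) k u
  have hcl : ∀ u v, cl N u v = enc (κ' u v) := by
    intro u v
    unfold cl
    have e : {s | ac N.2 s u v} = {enc (κ' u v)} := by
      ext s
      exact (hac s u v).trans eq_comm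
    rw [e, csInf_singleton]
  have hadj : ∀ u v, Adj N u v ↔ yl y (β u) (β v) := by
    intro u v
    show decide (yl y (β u) (β v)) = true ↔ _
    rw [decide_eq_true_iff]
  refine ⟨N, β, Λ, hadj, hΛ, ?_, ?_, ?_, ?_, ?_, ?_, ?_, ?_, ?_⟩
  · intro u v h1 h2
    apply θ.injective
    apply Subtype.ext
    exact Prod.ext h1 (funext h2)
  · intro a
    refine ⟨θ.symm ⟨(a, F a), n a, hF a⟩, ?_⟩
    show (θ (θ.symm _)).1.1 = a
    rw [θ.apply_symm_apply]
  · intro u k hk p hp
    -- the permuted labelling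
    have hlen : p.length = k := by rw [hp.length_eq, List.length_range]
    have hnd : p.Nodup := hp.nodup_iff.2 List.nodup_range
    have hget : ∀ l, Bel y (β u) l → ∀ h : Λ u l < p.length, p.getD (Λ u l) 0 = p[Λ u l] :=
      fun l hl h => List.getD_eq_getElem _ _ h
    have hl' : ∀ l, Bel y (β u) l → Λ u l < p.length := fun l hl => by
      rw [hlen]; exact hk.lt hl
    have hL : Lab y (β u) (fun l => if Bel y (β u) l then p.getD (Λ u l) 0 else 0) k := by
      refine ⟨fun l hl => if_neg hl, fun l l' hl hl2 => ?_, fun i => ?_⟩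
      · simp only [if_pos hl, if_pos hl2]
        rw [hget l hl (hl' l hl), hget l' hl2 (hl' l' hl2), hnd.getElem_inj_iff]
        exact hk.inj _ _ hl hl2
      · constructor
        · intro hi
          have hmem : i ∈ p := hp.mem_iff.2 (List.mem_range.2 hi)
          obtain ⟨j, hj, hji⟩ := List.getElem_of_mem hmem
          obtain ⟨l, hl, hlj⟩ := (hk.rng j).1 (by rw [← hlen]; exact hj)
          refine ⟨l, hl, ?_⟩
          simp only [if_pos hl]
          rw [hget l hl (hl' l hl), ← hji]
          simp only [hlj]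
        · rintro ⟨l, hl, rfl⟩
          simp only [if_pos hl]
          rw [hget l hl (hl' l hl)]
          exact List.mem_range.1 (hp.mem_iff.1 (List.getElem_mem _))
    refine ⟨θ.symm ⟨(β u, fun l => if Bel y (β u) l then p.getD (Λ u l) 0 else 0), k, hL⟩, ?_,
      fun l hl => ?_⟩
    · show (θ (θ.symm _)).1.1 = _
      rw [θ.apply_symm_apply]
    · show (θ (θ.symm _)).1.2 l = _
      rw [θ.apply_symm_apply]
      exact if_pos hl
  · intro u v h
    exact (hlt u v).1 h
  · intro s u v
    rw [hcl]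
    exact hac s u v
  · intro u v h
    rw [hcl, dec_enc]
    show Col y (β u) (Λ u) (β v) (Λ v) (if yl y (β v) (β u) then κ v u else κ u v)
    rw [if_neg h]
    exact hκ u v h
  · intro u v
    rw [hcl, dec_enc]
  · intro u v h
    rw [hcl, hcl]
    have h1 := (hadj u v).1 h
    have h2 : ¬ yl y (β v) (β u) := fun h3 => hy.irr _ (hy.tr _ _ _ h1 h3)
    show enc (if yl y (β v) (β u) then κ v u else κ u v) =
      enc (if yl y (β u) (β v) then κ u v else κ v u)
    rw [if_neg h2, if_pos h1]
  · exact hco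

end Pool.Agent.N643.MN
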