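import Pool.Agent.N643.MN.Me
import Pool.Agent.TH425.FF.Par

set_option autoImplicit false

/-!
# The dichotomy for ordered structures with locally finite rows
-/

namespace Pool.Agent.N643.MN

open Set
open Pool.Agent.N643.AX (SM Par AC cl piso_raw cl_raw vc_ac)
open Pool.Agent.H899R2.VP (Adj PIso IsoOn)
open Pool.Agent.H566P (lt ac co mk)
open Pool.Agent.TH425.FF (cantor_cont)

theorem borel_SM : BorelSpace SM := by
  have b0 : BorelSpace (ℕ → Bool) := Pi.borelSpace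
  have b1 : BorelSpace (ℕ → ℕ → Bool) := Pi.borelSpace
  have b2 : ∀ i : ℕ, BorelSpace ((Fin (Pool.Agent.H566P.ar i) → ℕ) → Bool) :=
    fun i => Pi.borelSpace
  have b3 : BorelSpace ((i : ℕ) → (Fin (Pool.Agent.H566P.ar i) → ℕ) → Bool) := Pi.borelSpace
  exact Prod.borelSpace

theorem borel_YS : BorelSpace YS := by
  have b0 : BorelSpace (ℕ → Bool) := Pi.borelSpace
  have b1 : BorelSpace (ℕ → ℕ → Bool) := Pi.borelSpace
  have b2 : BorelSpace (List ℕ → ℕ → Bool) := Pi.borelSpace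
  exact Prod.borelSpace

/-- the dichotomy for the types of decreasing tuples -/
theorem vc_Y (B : Set YS) (hBm : MeasurableSet B)
    (hBi : ∀ y ∈ B, ∀ y' σ, YI σ y y' → y' ∈ B) (hB : ∀ y ∈ B, Yc y) :
    (∃ f : ℕ → YS, ∀ y ∈ B, ∃ n σ, YI σ (f n) y) ∨
    (∃ g : (ℕ → Bool) → YS, Continuous g ∧ (∀ c, g c ∈ B) ∧
      ∀ c d, (∃ σ, YI σ (g c) (g d)) → c = d) := by
  let K : Set SM := {N | DN N ∈ B ∧ Pres (DN N) N (bi N) (LD N)}
  have hKm : MeasurableSet K := (m_DN hBm).inter m_Pres.setOf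
  have hKmem : ∀ N y β Λ, y ∈ B → Pres y N β Λ → N ∈ K := by
    intro N y β Λ hyB hP
    obtain ⟨⟨σ, h1⟩, h2⟩ := pres_D (hB y hyB) hP
    exact ⟨hBi y hyB _ σ h1, h2⟩
  have hKi : ∀ N ∈ K, ∀ N' : SM, IsoOn N N' univ univ ∅ → N' ∈ K := by
    intro N hN N' h
    obtain ⟨ψ, hψ⟩ := NI_of_isoOn h
    exact hKmem _ _ _ _ hN.1 (pres_N hψ hN.2)
  have hKa : ∀ N ∈ K, AC PM N := fun N hN => pres_ac (hB _ hN.1) hN.2
  rcases vc_ac PM K hKm hKi hKa with ⟨f, hf⟩ | ⟨g, hg1, hg2, hg3⟩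
  · left
    refine ⟨fun n => DN (f n), fun y hy => ?_⟩
    obtain ⟨N, β, Λ, hP⟩ := pres_ex (hB y hy)
    obtain ⟨n, hn⟩ := hf N (hKmem _ _ _ _ hy hP)
    obtain ⟨ψ, hψ⟩ := NI_of_isoOn hn
    obtain ⟨⟨σ, h1⟩, -⟩ := pres_D (hB y hy) (pres_N hψ.symm hP)
    exact ⟨n, σ.symm, h1.symm⟩
  · right
    have hm : Measurable fun c => DN (g c) := by
      have b0 : BorelSpace (ℕ → Bool) := Pi.borelSpace
      have b1 := borel_SM
      exact m_DN.comp hg1.measurable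
    have hinj : ∀ c d, (∃ σ, YI σ (DN (g c)) (DN (g d))) → c = d := by
      rintro c d ⟨σ, h⟩
      refine hg3 c d ?_
      obtain ⟨ψ, hψ⟩ := pres_iso (hB _ (hg2 d).1) (pres_y h (hg2 c).2) (hg2 d).2
      exact isoOn_of_NI hψ
    have b1 := borel_YS
    obtain ⟨r, hr1, hr2, hr3⟩ := cantor_cont _ hm
    exact ⟨fun c => DN (g (r c)), hr3, fun c => (hg2 _).1, fun c d h => hr2 (hinj _ _ h)⟩

end Pool.Agent.N643.MN
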