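import Pool.Agent.N643.MN.De

set_option autoImplicit false

/-!
# Measurability of the decoding
-/

namespace Pool.Agent.N643.MN

open Set
open Pool.Agent.N643.AX (SM Par AC cl piso_raw cl_raw)
open Pool.Agent.H899R2.VP (Adj PIso IsoOn)
open Pool.Agent.H566P (lt ac co mk)
open Pool.Agent.Y560.TG (meas_lt meas_ac meas_co)
open Pool.Agent.H533R2.VO (main_meas_adj)

section gen

variable {Ω γ : Type} [MeasurableSpace Ω] [MeasurableSpace γ]

theorem m_comp {F : Ω → ℕ → γ} (hF : ∀ k, Measurable fun z => F z k) {g : Ω → ℕ}
    (hg : Measurable g) : Measurable fun z => F z (g z) :=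
  (measurable_from_prod_countable_left (f := fun p : Ω × ℕ => F p.1 p.2) hF).comp
    (measurable_id.prodMk hg)

theorem m_const_eq {f : Ω → ℕ} (hf : Measurable f) (k : ℕ) : Measurable fun z => f z = k :=
  measurableSet_setOfPred.1 (hf (measurableSet_singleton k))

theorem m_eq {f g : Ω → ℕ} (hf : Measurable f) (hg : Measurable g) :
    Measurable fun z => f z = g z :=
  m_comp (F := fun z k => f z = k) (fun k => m_const_eq hf k) hg

theorem m_sInf {p : Ω → ℕ → Prop} (h : ∀ k, Measurable fun z => p z k) :
    Measurable fun z => sInf {k | p z k} := by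
  refine measurable_to_countable' fun x => ?_
  have e : (fun z => sInf {k | p z k}) ⁻¹' {x} =
      {z | (p z x ∧ ∀ j, j < x → ¬ p z j) ∨ (x = 0 ∧ ∀ j, ¬ p z j)} := by
    ext z
    show sInf {k | p z k} = x ↔ ((p z x ∧ ∀ j, j < x → ¬ p z j) ∨ (x = 0 ∧ ∀ j, ¬ p z j))
    constructor
    · rintro rfl
      by_cases hne : {k | p z k}.Nonempty
      · exact Or.inl ⟨Nat.sInf_mem hne, fun j hj => Nat.notMem_of_lt_sInf hj⟩
      · rw [Set.not_nonempty_iff_eq_empty] at hne
        right
        rw [hne]
        exact ⟨Nat.sInf_empty, fun j hj => by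
          have : j ∈ {k | p z k} := hj
          rw [hne] at this
          exact this⟩
    · rintro (⟨h1, h2⟩ | ⟨h1, h2⟩)
      · refine le_antisymm (Nat.sInf_le h1) ?_
        by_contra hc
        push Not at hc
        exact h2 _ hc (Nat.sInf_mem ⟨x, h1⟩)
      · have : {k | p z k} = ∅ := Set.eq_empty_of_forall_notMem h2
        rw [this, h1]
        exact Nat.sInf_empty
  rw [e]
  refine MeasurableSet.union ?_ ?_
  · exact ((h x).and (Measurable.forall fun j => measurable_const.imp (h j).not)).setOf
  · exact ((measurable_const).and (Measurable.forall fun j => (h j).not)).setOf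

end gen

theorem m_adj (u v : ℕ) : Measurable fun N : SM => Adj N u v :=
  measurableSet_setOfPred.1 (main_meas_adj u v)

theorem m_ac (s u v : ℕ) : Measurable fun N : SM => ac N.2 s u v :=
  measurableSet_setOfPred.1 (measurable_snd (meas_ac s u v))

theorem m_lt (u v : ℕ) : Measurable fun N : SM => lt N.2 u v :=
  measurableSet_setOfPred.1 (measurable_snd (meas_lt u v))

theorem m_co (k u : ℕ) : Measurable fun N : SM => co N.2 k u :=
  measurableSet_setOfPred.1 (measurable_snd (meas_co k u))

theorem m_cl (u v : ℕ) : Measurable fun N : SM => cl N u v :=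
  m_sInf fun s => m_ac s u v

theorem m_Fst (x : ℕ) : Measurable fun N : SM => Fst N x :=
  Measurable.forall fun z => measurable_const.imp ((m_adj x z).or (m_adj z x))

theorem m_mb (x : ℕ) : Measurable fun N : SM => mb N x :=
  m_sInf fun z => (m_adj x z).not.and (m_adj z x).not

theorem m_ct (x : ℕ) : Measurable fun N : SM => ct N x := by
  classical
  induction x with
  | zero =>
    have e : (fun N : SM => ct N 0) = fun _ => 0 := by
      funext N
      unfold ct
      exact Nat.count_zero _
    rw [e]
    exact measurable_const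
  | succ x ih =>
    have e : (fun N : SM => ct N (x + 1)) = fun N => ct N x + if Fst N x then 1 else 0 := by
      funext N
      unfold ct
      rw [Nat.count_succ]
    rw [e]
    exact ih.add (Measurable.ite (m_Fst x).setOf measurable_const measurable_const)

theorem m_bi (x : ℕ) : Measurable fun N : SM => bi N x := m_comp (F := ct) m_ct (m_mb x)

theorem m_rp (a : ℕ) : Measurable fun N : SM => rp N a :=
  m_sInf fun x => (m_Fst x).and (m_const_eq (m_ct x) a)

theorem m_run (l : List ℕ) (x : ℕ) : Measurable fun N : SM => run N l x := by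
  induction l generalizing x with
  | nil => exact measurable_from_nat.comp (m_cl x x)
  | cons z l ih =>
    show Measurable fun N : SM => c1 (cl N (rp N z) x) (run N l (rp N z))
    have h1 : Measurable fun N : SM => cl N (rp N z) x :=
      m_comp (F := fun N k => cl N k x) (fun k => m_cl k x) (m_rp z)
    have h2 : Measurable fun N : SM => run N l (rp N z) :=
      m_comp (F := fun N k => run N l k) (fun k => ih k) (m_rp z)
    exact m_comp (F := fun N i => c1 (cl N (rp N z) x) i)
      (fun i => (measurable_from_nat (f := fun s => c1 s i)).comp h1) h2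

theorem m_yl (a b : ℕ) : Measurable fun N : SM => yl (DN N) a b := by
  simp only [yl_DN]
  exact m_comp (F := fun N k => Adj N (rp N a) k)
    (fun k => m_comp (F := fun N j => Adj N j k) (fun j => m_adj j k) (m_rp a)) (m_rp b)

theorem m_Bel (a : ℕ) (l : List ℕ) : Measurable fun N : SM => Bel (DN N) a l := by
  induction l generalizing a with
  | nil => exact measurable_const
  | cons z l ih => exact (m_yl z a).and (ih z)

theorem m_ya (l : List ℕ) (r : ℕ) : Measurable fun N : SM => ya (DN N) l r := by
  simp only [ya_DN]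
  cases l with
  | nil => exact measurable_const
  | cons z l =>
    show Measurable fun N : SM => Bel (oD N) z l ∧
      co N.2 (Nat.pair (run N l (rp N z)) r) (rp N z)
    simp only [Bel_oD]
    refine (m_Bel z l).and ?_
    refine m_comp (F := fun N k => co N.2 (Nat.pair (run N l k) r) k) (fun k => ?_) (m_rp z)
    exact m_comp (F := fun N j => co N.2 (Nat.pair j r) k) (fun j => m_co _ _) (m_run l k)

theorem m_row (a : ℕ) (l t : List ℕ) (r : ℕ) : Measurable fun N : SM => row (DN N) a l t r := by
  unfold row
  exact (Measurable.forall fun z => measurable_const.imp (m_yl z a).not).and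
    (measurable_const.and (m_ya _ _))

theorem m_roweq (a : ℕ) (l l' : List ℕ) :
    Measurable fun N : SM => row (DN N) a l = row (DN N) a l' := by
  have e : (fun N : SM => row (DN N) a l = row (DN N) a l') =
      fun N : SM => ∀ t r, row (DN N) a l t r ↔ row (DN N) a l' t r := by
    funext N
    apply propext
    constructor
    · intro h t r
      rw [h]
    · intro h
      funext t r
      exact propext (h t r)
  rw [e]
  exact Measurable.forall fun t => Measurable.forall fun r => (m_row _ _ _ _).iff (m_row _ _ _ _)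

theorem m_LD (x : ℕ) (l : List ℕ) : Measurable fun N : SM => LD N x l := by
  classical
  unfold LD
  refine Measurable.ite ?_ (m_run l x) measurable_const
  exact (m_comp (F := fun N a => Bel (DN N) a l) (fun a => m_Bel a l) (m_bi x)).setOf

theorem m_Lab (a u n : ℕ) : Measurable fun N : SM => Lab (DN N) a (LD N u) n := by
  have e : (fun N : SM => Lab (DN N) a (LD N u) n) = fun N : SM =>
      (∀ l, ¬ Bel (DN N) a l → LD N u l = 0) ∧
      (∀ l l', Bel (DN N) a l → Bel (DN N) a l' →
        (LD N u l = LD N u l' ↔ row (DN N) a l = row (DN N) a l')) ∧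
      ∀ i, i < n ↔ ∃ l, Bel (DN N) a l ∧ LD N u l = i := by
    funext N
    apply propext
    exact ⟨fun h => ⟨h.out, h.inj, h.rng⟩, fun h => ⟨h.1, h.2.1, h.2.2⟩⟩
  rw [e]
  refine (Measurable.forall fun l => (m_Bel a l).not.imp (m_const_eq (m_LD u l) 0)).and
    ((Measurable.forall fun l => Measurable.forall fun l' => (m_Bel a l).imp ((m_Bel a l').imp
      ((m_eq (m_LD u l) (m_LD u l')).iff (m_roweq a l l')))).and ?_)
  exact Measurable.forall fun i => measurable_const.iff
    (Measurable.exists fun l => (m_Bel a l).and (m_const_eq (m_LD u l) i))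

theorem m_Col (a u b v : ℕ) (c : CT) :
    Measurable fun N : SM => Col (DN N) a (LD N u) b (LD N v) c := by
  have e : (fun N : SM => Col (DN N) a (LD N u) b (LD N v) c) = fun N : SM =>
      (∀ i, i < c.1.length ↔ ∃ l, Bel (DN N) a l ∧ LD N u l = i) ∧
      (∀ l, Bel (DN N) a l → c.1.getD (LD N u l) 0 = LD N v l) ∧
      (a = b → c.2.1 = []) ∧
      (a ≠ b → c.2.1.length = c.1.length) ∧
      (∀ l, a ≠ b → Bel (DN N) a l → c.2.1.getD (LD N u l) 0 = LD N v (a :: l)) ∧
      LD N u [] = c.2.2 := by
    funext N
    apply propext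
    exact ⟨fun h => ⟨h.len, h.F, h.G0, h.Gl, fun l h1 => h.G h1 l, h.ini.symm⟩,
      fun h => ⟨h.1, h.2.1, h.2.2.1, h.2.2.2.1, fun h1 l => h.2.2.2.2.1 l h1,
        h.2.2.2.2.2.symm⟩⟩
  rw [e]
  refine (Measurable.forall fun i => measurable_const.iff
    (Measurable.exists fun l => (m_Bel a l).and (m_const_eq (m_LD u l) i))).and
    ((Measurable.forall fun l => (m_Bel a l).imp (m_eq ?_ (m_LD v l))).and
    (measurable_const.and (measurable_const.and
    ((Measurable.forall fun l => measurable_const.imp ((m_Bel a l).imp
      (m_eq ?_ (m_LD v (a :: l))))).and (m_const_eq (m_LD u []) _)))))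
  · exact (measurable_from_nat (f := fun i => c.1.getD i 0)).comp (m_LD u l)
  · exact (measurable_from_nat (f := fun i => c.2.1.getD i 0)).comp (m_LD u l)

theorem m_CoP (a u k : ℕ) : Measurable fun N : SM => CoP (DN N) a (LD N u) k := by
  unfold CoP
  exact Measurable.exists fun l => (m_Bel a l).and
    ((m_const_eq (m_LD u l) _).and (m_ya (a :: l) _))

theorem m_Lab' (u n : ℕ) : Measurable fun N : SM => Lab (DN N) (bi N u) (LD N u) n :=
  m_comp (F := fun N a => Lab (DN N) a (LD N u) n) (fun a => m_Lab a u n) (m_bi u)

theorem m_Pres : Measurable fun N : SM => Pres (DN N) N (bi N) (LD N) := by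
  have e : (fun N : SM => Pres (DN N) N (bi N) (LD N)) = fun N : SM =>
      (∀ u v, Adj N u v ↔ yl (DN N) (bi N u) (bi N v)) ∧
      (∀ u, ∃ n, Lab (DN N) (bi N u) (LD N u) n) ∧
      (∀ u v, bi N u = bi N v → (∀ l, LD N u l = LD N v l) → u = v) ∧
      (∀ a, ∃ u, bi N u = a) ∧
      (∀ u n, Lab (DN N) (bi N u) (LD N u) n → ∀ p : List ℕ, p.Perm (List.range n) →
        ∃ v, bi N v = bi N u ∧ ∀ l, Bel (DN N) (bi N u) l → LD N v l = p.getD (LD N u l) 0) ∧
      (∀ u v, ¬ lt N.2 u v) ∧
      (∀ s u v, ac N.2 s u v ↔ cl N u v = s) ∧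
      (∀ u v, ¬ yl (DN N) (bi N v) (bi N u) →
        Col (DN N) (bi N u) (LD N u) (bi N v) (LD N v) (dec (cl N u v))) ∧
      (∀ u v, enc (dec (cl N u v)) = cl N u v) ∧
      (∀ u v, Adj N u v → cl N u v = cl N v u) ∧
      ∀ k u, co N.2 k u ↔ CoP (DN N) (bi N u) (LD N u) k := by
    funext N
    apply propext
    exact ⟨fun h => ⟨h.adj, h.lab, h.inj, h.sur1, h.sur2, h.nl, h.col, h.cle, h.can, h.sy,
      h.co⟩, fun ⟨h1, h2, h3, h4, h5, h6, h7, h8, h9, h10, h11⟩ =>
      ⟨h1, h2, h3, h4, h5, h6, h7, h8, h9, h10, h11⟩⟩
  rw [e]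
  have hyl : ∀ u v, Measurable fun N : SM => yl (DN N) (bi N u) (bi N v) := fun u v =>
    m_comp (F := fun N b => yl (DN N) (bi N u) b) (fun b =>
      m_comp (F := fun N a => yl (DN N) a b) (fun a => m_yl a b) (m_bi u)) (m_bi v)
  have hBel : ∀ u l, Measurable fun N : SM => Bel (DN N) (bi N u) l := fun u l =>
    m_comp (F := fun N a => Bel (DN N) a l) (fun a => m_Bel a l) (m_bi u)
  refine Measurable.and ?_ (Measurable.and ?_ (Measurable.and ?_ (Measurable.and ?_
    (Measurable.and ?_ (Measurable.and ?_ (Measurable.and ?_ (Measurable.and ?_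
    (Measurable.and ?_ (Measurable.and ?_ ?_)))))))))
  · exact Measurable.forall fun u => Measurable.forall fun v => (m_adj u v).iff (hyl u v)
  · exact Measurable.forall fun u => Measurable.exists fun n => m_Lab' u n
  · exact Measurable.forall fun u => Measurable.forall fun v =>
      (m_eq (m_bi u) (m_bi v)).imp ((Measurable.forall fun l =>
        m_eq (m_LD u l) (m_LD v l)).imp measurable_const)
  · exact Measurable.forall fun a => Measurable.exists fun u => m_const_eq (m_bi u) a
  · refine Measurable.forall fun u => Measurable.forall fun n => (m_Lab' u n).imp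
      (Measurable.forall fun p => measurable_const.imp (Measurable.exists fun v =>
        (m_eq (m_bi v) (m_bi u)).and (Measurable.forall fun l => (hBel u l).imp
          (m_eq (m_LD v l) ?_))))
    exact (measurable_from_nat (f := fun i => p.getD i 0)).comp (m_LD u l)
  · exact Measurable.forall fun u => Measurable.forall fun v => (m_lt u v).not
  · exact Measurable.forall fun s => Measurable.forall fun u => Measurable.forall fun v =>
      (m_ac s u v).iff (m_const_eq (m_cl u v) s)
  · refine Measurable.forall fun u => Measurable.forall fun v => (hyl v u).not.imp ?_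
    refine m_comp (F := fun N s => Col (DN N) (bi N u) (LD N u) (bi N v) (LD N v) (dec s))
      (fun s => ?_) (m_cl u v)
    refine m_comp (F := fun N b => Col (DN N) (bi N u) (LD N u) b (LD N v) (dec s))
      (fun b => ?_) (m_bi v)
    exact m_comp (F := fun N a => Col (DN N) a (LD N u) b (LD N v) (dec s))
      (fun a => m_Col a u b v _) (m_bi u)
  · exact Measurable.forall fun u => Measurable.forall fun v =>
      m_eq ((measurable_from_nat (f := fun s => enc (dec s))).comp (m_cl u v)) (m_cl u v)
  · exact Measurable.forall fun u => Measurable.forall fun v =>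
      (m_adj u v).imp (m_eq (m_cl u v) (m_cl v u))
  · exact Measurable.forall fun k => Measurable.forall fun u => (m_co k u).iff
      (m_comp (F := fun N a => CoP (DN N) a (LD N u) k) (fun a => m_CoP a u k) (m_bi u))

theorem m_DN : Measurable DN := by
  have h1 : Measurable fun N : SM => (DN N).1 := by
    refine measurable_pi_lambda _ fun a => measurable_pi_lambda _ fun b => ?_
    exact measurable_to_bool (m_yl a b).setOf
  have h2 : Measurable fun N : SM => (DN N).2 := by
    refine measurable_pi_lambda _ fun l => measurable_pi_lambda _ fun r => ?_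
    exact measurable_to_bool (m_ya l r).setOf
  exact h1.prodMk h2

end Pool.Agent.N643.MN
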