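import Mathlib

set_option autoImplicit false

/-!
# Monadic second-order logic of linear orders: finitely many rows at each cut
-/

namespace Pool.Agent.N643.MN.Mso

open Set

/-- Formulas of monadic second-order logic with `e` free element variables and `s` free set
variables. -/
inductive MSO : ℕ → ℕ → Type
  | eq {e s : ℕ} (i j : Fin e) : MSO e s
  | lt {e s : ℕ} (i j : Fin e) : MSO e s
  | mem {e s : ℕ} (i : Fin e) (j : Fin s) : MSO e s
  | not {e s : ℕ} (φ : MSO e s) : MSO e s
  | and {e s : ℕ} (φ ψ : MSO e s) : MSO e s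
  | all1 {e s : ℕ} (φ : MSO (e + 1) s) : MSO e s
  | all2 {e s : ℕ} (φ : MSO e (s + 1)) : MSO e s

/-- Satisfaction in `ℕ` with the relation `r` for the symbol `<`. -/
def MSO.Sat (r : ℕ → ℕ → Prop) : {e s : ℕ} → MSO e s → (Fin e → ℕ) → (Fin s → Set ℕ) → Prop
  | _, _, .eq i j, v, _ => v i = v j
  | _, _, .lt i j, v, _ => r (v i) (v j)
  | _, _, .mem i j, v, P => v i ∈ P j
  | _, _, .not φ, v, P => ¬ φ.Sat r v P
  | _, _, .and φ ψ, v, P => φ.Sat r v P ∧ ψ.Sat r v P
  | _, _, .all1 φ, v, P => ∀ x : ℕ, φ.Sat r (Fin.snoc v x) P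
  | _, _, .all2 φ, v, P => ∀ X : Set ℕ, φ.Sat r v (Fin.snoc P X)

/-- quantifier rank -/
def qr : {e s : ℕ} → MSO e s → ℕ
  | _, _, .eq _ _ => 0
  | _, _, .lt _ _ => 0
  | _, _, .mem _ _ => 0
  | _, _, .not φ => qr φ
  | _, _, .and φ ψ => max (qr φ) (qr ψ)
  | _, _, .all1 φ => qr φ + 1
  | _, _, .all2 φ => qr φ + 1

/-- The types of rank `q`. -/
def T : ℕ → ℕ → ℕ → Type
  | 0, e, s => (Fin e → Fin e → Prop × Prop) × (Fin e → Fin s → Prop)
  | q + 1, e, s => T q e s × Set (T q (e + 1) s) × T q (e + 1) s × Set (T q e (s + 1))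

theorem finT : ∀ q e s, Finite (T q e s)
  | 0, e, s => by
    unfold T
    infer_instance
  | q + 1, e, s => by
    have h1 := finT q e s
    have h2 := finT q (e + 1) s
    have h3 := finT q e (s + 1)
    unfold T
    infer_instance

variable (r : ℕ → ℕ → Prop) (c : ℕ)

/-- The type of a left configuration: the variables `i` with `σ i` are below the cut. -/
def ty : (q : ℕ) → (e s : ℕ) → (Fin e → Bool) → (Fin e → ℕ) → (Fin s → Set ℕ) → T q e s
  | 0, _, _, σ, u, P => (fun i j => (σ i = true ∧ σ j = true ∧ u i = u j,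
      σ i = true ∧ σ j = true ∧ r (u i) (u j)), fun i j => σ i = true ∧ u i ∈ P j)
  | q + 1, e, s, σ, u, P => (ty q e s σ u P,
      {τ | ∃ z, r z c ∧ τ = ty q (e + 1) s (Fin.snoc σ true) (Fin.snoc u z) P},
      ty q (e + 1) s (Fin.snoc σ false) (Fin.snoc u 0) P,
      {τ | ∃ X, τ = ty q e (s + 1) σ u (Fin.snoc P X)})

/-- the elements -/
def mrg {e : ℕ} (σ : Fin e → Bool) (u w : Fin e → ℕ) (i : Fin e) : ℕ := if σ i = true then u i else w i

variable {r c}

theorem mrg_snoc_t {e : ℕ} (σ : Fin e → Bool) (u w : Fin e → ℕ) (z y : ℕ) :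
    mrg (Fin.snoc σ true) (Fin.snoc u z) (Fin.snoc w y) = Fin.snoc (α := fun _ => ℕ) (mrg σ u w) z := by
  funext i
  refine Fin.lastCases ?_ (fun i => ?_) i
  · simp [mrg]
  · simp [mrg]

theorem mrg_snoc_f {e : ℕ} (σ : Fin e → Bool) (u w : Fin e → ℕ) (z y : ℕ) :
    mrg (Fin.snoc σ false) (Fin.snoc u z) (Fin.snoc w y) = Fin.snoc (α := fun _ => ℕ) (mrg σ u w) y := by
  funext i
  refine Fin.lastCases ?_ (fun i => ?_) i
  · simp [mrg]
  · simp [mrg]

theorem ty_pred {q e s : ℕ} {σ : Fin e → Bool} {u u' : Fin e → ℕ} {P P' : Fin s → Set ℕ}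
    (h : ty r c (q + 1) e s σ u P = ty r c (q + 1) e s σ u' P') :
    ty r c q e s σ u P = ty r c q e s σ u' P' := congrArg Prod.fst h

theorem ty_mono {q q' e s : ℕ} {σ : Fin e → Bool} {u u' : Fin e → ℕ} {P P' : Fin s → Set ℕ}
    (hq : q ≤ q') (h : ty r c q' e s σ u P = ty r c q' e s σ u' P') :
    ty r c q e s σ u P = ty r c q e s σ u' P' := by
  induction hq with
  | refl => exact h
  | step _ ih => exact ih (ty_pred h)

/-- the type depends only on what is below the cut -/
theorem ty_congr : ∀ (q e s : ℕ) (σ : Fin e → Bool) (u u' : Fin e → ℕ) (P P' : Fin s → Set ℕ),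
    (∀ i, σ i = true → r (u i) c) → (∀ i, σ i = true → u i = u' i) →
    (∀ j x, r x c → (x ∈ P j ↔ x ∈ P' j)) → ty r c q e s σ u P = ty r c q e s σ u' P'
  | 0, e, s, σ, u, u', P, P', hu, huu, hP => by
    have h1 : ∀ i j, ((σ i = true ∧ σ j = true ∧ u i = u j) =
        (σ i = true ∧ σ j = true ∧ u' i = u' j)) ∧
        ((σ i = true ∧ σ j = true ∧ r (u i) (u j)) =
        (σ i = true ∧ σ j = true ∧ r (u' i) (u' j))) := by
      intro i j
      by_cases hi : σ i = true <;> by_cases hj : σ j = true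
      · rw [huu i hi, huu j hj]
        exact ⟨rfl, rfl⟩
      · simp [hj]
      · simp [hi]
      · simp [hi]
    have h2 : ∀ i j, (σ i = true ∧ u i ∈ P j) = (σ i = true ∧ u' i ∈ P' j) := by
      intro i j
      by_cases hi : σ i = true
      · rw [← huu i hi]
        exact propext (and_congr_right fun _ => hP j _ (hu i hi))
      · simp [hi]
    show ((fun i j => (_, _)), fun i j => _) = (((fun i j => (_, _)), fun i j => _) : T 0 e s)
    refine Prod.ext ?_ ?_
    · funext i j
      exact Prod.ext (h1 i j).1 (h1 i j).2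
    · funext i j
      exact h2 i j
  | q + 1, e, s, σ, u, u', P, P', hu, huu, hP => by
    have hu' : ∀ b : Bool, ∀ z, (b = true → r z c) → ∀ i : Fin (e + 1),
        (Fin.snoc (α := fun _ => Bool) σ b) i = true →
        r ((Fin.snoc (α := fun _ => ℕ) u z) i) c := by
      intro b z hz i
      refine Fin.lastCases ?_ (fun i => ?_) i
      · simp only [Fin.snoc_last]
        exact hz
      · simp only [Fin.snoc_castSucc]
        exact hu i
    have huu' : ∀ b : Bool, ∀ z, ∀ i : Fin (e + 1),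
        (Fin.snoc (α := fun _ => Bool) σ b) i = true →
        (Fin.snoc (α := fun _ => ℕ) u z) i = (Fin.snoc (α := fun _ => ℕ) u' z) i := by
      intro b z i
      refine Fin.lastCases ?_ (fun i => ?_) i
      · simp only [Fin.snoc_last]
        intro _
        trivial
      · simp only [Fin.snoc_castSucc]
        exact huu i
    have a1 := ty_congr q e s σ u u' P P' hu huu hP
    have a2 : {τ | ∃ z, r z c ∧ τ = ty r c q (e + 1) s (Fin.snoc σ true) (Fin.snoc u z) P} =
        {τ | ∃ z, r z c ∧ τ = ty r c q (e + 1) s (Fin.snoc σ true) (Fin.snoc u' z) P'} := by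
      ext τ
      refine exists_congr fun z => and_congr_right fun hz => ?_
      rw [ty_congr q (e + 1) s (Fin.snoc σ true) (Fin.snoc u z) (Fin.snoc u' z) P P'
        (hu' true z fun _ => hz) (huu' true z) hP]
    have a3 := ty_congr q (e + 1) s (Fin.snoc σ false) (Fin.snoc u 0) (Fin.snoc u' 0) P P'
        (hu' false 0 (fun h => absurd h (by simp))) (huu' false 0) hP
    have a4 : {τ | ∃ X, τ = ty r c q e (s + 1) σ u (Fin.snoc P X)} =
        {τ | ∃ X, τ = ty r c q e (s + 1) σ u' (Fin.snoc P' X)} := by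
      ext τ
      refine exists_congr fun X => ?_
      rw [ty_congr q e (s + 1) σ u u' (Fin.snoc P X) (Fin.snoc P' X) hu huu (fun j => by
        refine Fin.lastCases ?_ (fun j => ?_) j
        · intro x _
          simp only [Fin.snoc_last]
        · simp only [Fin.snoc_castSucc]
          exact hP j)]
    exact Prod.ext a1 (Prod.ext a2 (Prod.ext a3 a4))

/-- composition -/
theorem comp (htr : ∀ x y z, r x y → r y z → r x z) (htot : ∀ x y, x = y ∨ r x y ∨ r y x)
    (hirr : ∀ x, ¬ r x x) {e s : ℕ} (φ : MSO e s) :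
    ∀ (q : ℕ) (σ : Fin e → Bool) (u u' w : Fin e → ℕ) (P P' : Fin s → Set ℕ), qr φ ≤ q →
      (∀ i, σ i = true → r (u i) c ∧ r (u' i) c) → (∀ i, σ i = false → ¬ r (w i) c) →
      (∀ j x, ¬ r x c → (x ∈ P j ↔ x ∈ P' j)) →
      ty r c q e s σ u P = ty r c q e s σ u' P' →
      (φ.Sat r (mrg σ u w) P ↔ φ.Sat r (mrg σ u' w) P') := by
  have lr : ∀ x y, r x c → ¬ r y c → r x y := by
    intro x y hx hy
    rcases htot y c with rfl | h | h
    · exact hx
    · exact absurd h hy
    · exact htr _ _ _ hx h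
  have ne : ∀ x y, r x c → ¬ r y c → x ≠ y := by
    rintro x y hx hy rfl
    exact hy hx
  have nrl : ∀ x y, r x c → ¬ r y c → ¬ r y x := fun x y hx hy h => hy (htr _ _ _ h hx)
  induction φ with
  | @eq e s i j =>
    intro q σ u u' w P P' _ hu hw _ h
    have h0 := ty_mono (Nat.zero_le q) h
    have h1 := congrArg Prod.fst (congrFun (congrFun (congrArg Prod.fst h0) i) j)
    show mrg σ u w i = mrg σ u w j ↔ mrg σ u' w i = mrg σ u' w j
    unfold mrg
    by_cases hi : σ i = true <;> by_cases hj : σ j = true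
    · rw [if_pos hi, if_pos hj, if_pos hi, if_pos hj]
      have h2 : (σ i = true ∧ σ j = true ∧ u i = u j) ↔ (σ i = true ∧ σ j = true ∧ u' i = u' j) :=
        iff_of_eq h1
      tauto
    · rw [if_pos hi, if_neg hj, if_pos hi, if_neg hj]
      have hj' : σ j = false := by simpa using hj
      exact ⟨fun h3 => absurd h3 (ne _ _ (hu i hi).1 (hw j hj')),
        fun h3 => absurd h3 (ne _ _ (hu i hi).2 (hw j hj'))⟩
    · rw [if_neg hi, if_pos hj, if_neg hi, if_pos hj]
      have hi' : σ i = false := by simpa using hi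
      exact ⟨fun h3 => absurd h3.symm (ne _ _ (hu j hj).1 (hw i hi')),
        fun h3 => absurd h3.symm (ne _ _ (hu j hj).2 (hw i hi'))⟩
    · rw [if_neg hi, if_neg hj, if_neg hi, if_neg hj]
  | @lt e s i j =>
    intro q σ u u' w P P' _ hu hw _ h
    have h0 := ty_mono (Nat.zero_le q) h
    have h1 := congrArg Prod.snd (congrFun (congrFun (congrArg Prod.fst h0) i) j)
    show r (mrg σ u w i) (mrg σ u w j) ↔ r (mrg σ u' w i) (mrg σ u' w j)
    unfold mrg
    by_cases hi : σ i = true <;> by_cases hj : σ j = true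
    · rw [if_pos hi, if_pos hj, if_pos hi, if_pos hj]
      have h2 : (σ i = true ∧ σ j = true ∧ r (u i) (u j)) ↔
          (σ i = true ∧ σ j = true ∧ r (u' i) (u' j)) := iff_of_eq h1
      tauto
    · rw [if_pos hi, if_neg hj, if_pos hi, if_neg hj]
      have hj' : σ j = false := by simpa using hj
      exact ⟨fun _ => lr _ _ (hu i hi).2 (hw j hj'), fun _ => lr _ _ (hu i hi).1 (hw j hj')⟩
    · rw [if_neg hi, if_pos hj, if_neg hi, if_pos hj]
      have hi' : σ i = false := by simpa using hi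
      exact ⟨fun h3 => absurd h3 (nrl _ _ (hu j hj).1 (hw i hi')),
        fun h3 => absurd h3 (nrl _ _ (hu j hj).2 (hw i hi'))⟩
    · rw [if_neg hi, if_neg hj, if_neg hi, if_neg hj]
  | @mem e s i j =>
    intro q σ u u' w P P' _ hu hw hP h
    have h0 := ty_mono (Nat.zero_le q) h
    have h1 := congrFun (congrFun (congrArg Prod.snd h0) i) j
    show mrg σ u w i ∈ P j ↔ mrg σ u' w i ∈ P' j
    unfold mrg
    by_cases hi : σ i = true
    · rw [if_pos hi, if_pos hi]
      have h2 : (σ i = true ∧ u i ∈ P j) ↔ (σ i = true ∧ u' i ∈ P' j) := iff_of_eq h1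
      tauto
    · rw [if_neg hi, if_neg hi]
      exact hP j _ (hw i (by simpa using hi))
  | not φ ih =>
    intro q σ u u' w P P' hq hu hw hP h
    exact not_congr (ih q σ u u' w P P' hq hu hw hP h)
  | and φ ψ ih1 ih2 =>
    intro q σ u u' w P P' hq hu hw hP h
    exact and_congr (ih1 q σ u u' w P P' (le_trans (le_max_left _ _) hq) hu hw hP h)
      (ih2 q σ u u' w P P' (le_trans (le_max_right _ _) hq) hu hw hP h)
  | @all1 e s φ ih =>
    have key : ∀ (q : ℕ) (σ : Fin e → Bool) (u u' w : Fin e → ℕ) (P P' : Fin s → Set ℕ),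
        qr φ + 1 ≤ q → (∀ i, σ i = true → r (u i) c ∧ r (u' i) c) →
        (∀ i, σ i = false → ¬ r (w i) c) → (∀ j x, ¬ r x c → (x ∈ P j ↔ x ∈ P' j)) →
        ty r c q e s σ u P = ty r c q e s σ u' P' →
        (∀ x, φ.Sat r (Fin.snoc (mrg σ u w) x) P) → ∀ x, φ.Sat r (Fin.snoc (mrg σ u' w) x) P' := by
      intro q σ u u' w P P' hq hu hw hP h hall x
      obtain ⟨q, rfl⟩ : ∃ q', q = q' + 1 := ⟨q - 1, by omega⟩
      by_cases hx : r x c
      · have h1 : ty r c q (e + 1) s (Fin.snoc σ true) (Fin.snoc u' x) P' ∈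
            {τ | ∃ z, r z c ∧ τ = ty r c q (e + 1) s (Fin.snoc σ true) (Fin.snoc u z) P} := by
          have h2 : {τ | ∃ z, r z c ∧ τ = ty r c q (e + 1) s (Fin.snoc σ true) (Fin.snoc u z) P} =
              {τ | ∃ z, r z c ∧ τ = ty r c q (e + 1) s (Fin.snoc σ true) (Fin.snoc u' z) P'} :=
            congrArg (fun t => t.2.1) h
          rw [h2]
          exact ⟨x, hx, rfl⟩
        obtain ⟨z, hz, h3⟩ := h1
        have h4 := ih q (Fin.snoc σ true) (Fin.snoc u z) (Fin.snoc u' x) (Fin.snoc w 0) P P'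
          (by omega) (fun i => by
            refine Fin.lastCases ?_ (fun i => ?_) i
            · intro _
              simp only [Fin.snoc_last]
              exact ⟨hz, hx⟩
            · simp only [Fin.snoc_castSucc]
              exact hu i) (fun i => by
            refine Fin.lastCases ?_ (fun i => ?_) i
            · intro hf
              simp only [Fin.snoc_last] at hf
              exact absurd hf (by simp)
            · simp only [Fin.snoc_castSucc]
              exact hw i) hP h3.symm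
        rw [mrg_snoc_t, mrg_snoc_t] at h4
        exact h4.1 (hall z)
      · have h3 : ty r c q (e + 1) s (Fin.snoc σ false) (Fin.snoc u 0) P =
            ty r c q (e + 1) s (Fin.snoc σ false) (Fin.snoc u' 0) P' :=
          congrArg (fun t => t.2.2.1) h
        have h4 := ih q (Fin.snoc σ false) (Fin.snoc u 0) (Fin.snoc u' 0) (Fin.snoc w x) P P'
          (by omega) (fun i => by
            refine Fin.lastCases ?_ (fun i => ?_) i
            · intro hf
              simp only [Fin.snoc_last] at hf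
              exact absurd hf (by simp)
            · simp only [Fin.snoc_castSucc]
              exact hu i) (fun i => by
            refine Fin.lastCases ?_ (fun i => ?_) i
            · intro _
              simp only [Fin.snoc_last]
              exact hx
            · simp only [Fin.snoc_castSucc]
              exact hw i) hP h3
        rw [mrg_snoc_f, mrg_snoc_f] at h4
        exact h4.1 (hall x)
    intro q σ u u' w P P' hq hu hw hP h
    exact ⟨key q σ u u' w P P' hq hu hw hP h,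
      key q σ u' u w P' P hq (fun i hi => (hu i hi).symm) hw (fun j x hx => (hP j x hx).symm) h.symm⟩
  | @all2 e s φ ih =>
    have key : ∀ (q : ℕ) (σ : Fin e → Bool) (u u' w : Fin e → ℕ) (P P' : Fin s → Set ℕ),
        qr φ + 1 ≤ q → (∀ i, σ i = true → r (u i) c ∧ r (u' i) c) →
        (∀ i, σ i = false → ¬ r (w i) c) → (∀ j x, ¬ r x c → (x ∈ P j ↔ x ∈ P' j)) →
        ty r c q e s σ u P = ty r c q e s σ u' P' →
        (∀ X, φ.Sat r (mrg σ u w) (Fin.snoc P X)) → ∀ X, φ.Sat r (mrg σ u' w) (Fin.snoc P' X) := by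
      intro q σ u u' w P P' hq hu hw hP h hall X
      obtain ⟨q, rfl⟩ : ∃ q', q = q' + 1 := ⟨q - 1, by omega⟩
      have h1 : ty r c q e (s + 1) σ u' (Fin.snoc P' X) ∈
          {τ | ∃ X, τ = ty r c q e (s + 1) σ u (Fin.snoc P X)} := by
        have h2 : {τ | ∃ X, τ = ty r c q e (s + 1) σ u (Fin.snoc P X)} =
            {τ | ∃ X, τ = ty r c q e (s + 1) σ u' (Fin.snoc P' X)} :=
          congrArg (fun t => t.2.2.2) h
        rw [h2]
        exact ⟨X, rfl⟩
      obtain ⟨Y, h3⟩ := h1
      have h5 : ty r c q e (s + 1) σ u (Fin.snoc P Y) =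
          ty r c q e (s + 1) σ u (Fin.snoc P {x | (r x c ∧ x ∈ Y) ∨ (¬ r x c ∧ x ∈ X)}) := by
        refine ty_congr q e (s + 1) σ u u _ _ (fun i hi => (hu i hi).1) (fun _ _ => rfl) (fun j => ?_)
        refine Fin.lastCases ?_ (fun j => ?_) j
        · intro x hx
          simp only [Fin.snoc_last]
          show x ∈ Y ↔ (r x c ∧ x ∈ Y) ∨ (¬ r x c ∧ x ∈ X)
          tauto
        · intro x _
          simp only [Fin.snoc_castSucc]
      have h4 := ih q σ u u' w (Fin.snoc P {x | (r x c ∧ x ∈ Y) ∨ (¬ r x c ∧ x ∈ X)})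
        (Fin.snoc P' X) (by omega) hu hw (fun j => by
          refine Fin.lastCases ?_ (fun j => ?_) j
          · intro x hx
            simp only [Fin.snoc_last]
            show (r x c ∧ x ∈ Y) ∨ (¬ r x c ∧ x ∈ X) ↔ x ∈ X
            tauto
          · simp only [Fin.snoc_castSucc]
            exact hP j) (h5.symm.trans h3.symm)
      exact h4.1 (hall _)
    intro q σ u u' w P P' hq hu hw hP h
    exact ⟨key q σ u u' w P P' hq hu hw hP h,
      key q σ u' u w P' P hq (fun i hi => (hu i hi).symm) hw (fun j x hx => (hP j x hx).symm) h.symm⟩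

/-- the elements below the cut -/
def elU {e k : ℕ} (g : Fin e → Option (Fin k)) (s : Fin k → ℕ) (j : Fin e) : ℕ :=
  match g j with
  | some t => s t
  | none => 0

/-- the skeleton of an argument pattern -/
def skel {e k : ℕ} (f : Fin e → Fin k ⊕ ℕ) (j : Fin e) : Option (Fin k) :=
  match f j with
  | Sum.inl t => some t
  | Sum.inr _ => none

/-- the parameters of an argument pattern -/
def parW {e k : ℕ} (c : ℕ) (f : Fin e → Fin k ⊕ ℕ) (j : Fin e) : ℕ :=
  match f j with
  | Sum.inl _ => c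
  | Sum.inr b => b

theorem mrg_subst {e k : ℕ} (c : ℕ) (f : Fin e → Fin k ⊕ ℕ) (s : Fin k → ℕ) :
    mrg (fun j => (skel f j).isSome) (elU (skel f) s) (parW c f) = fun j => Sum.elim s id (f j) := by
  funext j
  rcases hf : f j with t | b
  · simp [mrg, elU, skel, hf]
  · simp [mrg, elU, skel, parW, hf]

/-- finitely many rows -/
theorem lb_mso {ι : Type} {ar : ι → ℕ} (R : (i : ι) → (Fin (ar i) → ℕ) → Prop)
    (lt : ℕ → ℕ → Prop) (irr : ∀ m, ¬ lt m m) (tr : ∀ m n k, lt m n → lt n k → lt m k)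
    (tot : ∀ m n, m = n ∨ lt m n ∨ lt n m) (hfin : {i | 2 ≤ ar i}.Finite)
    (h : ∀ i, 2 ≤ ar i → ∃ (s : ℕ) (φ : MSO (ar i) s) (P : Fin s → Set ℕ),
      ∀ v, R i v ↔ φ.Sat lt v P) (k : ℕ) :
    ∃ n : ℕ, ∀ c, ∃ r : Fin n → Fin k → ℕ, ∀ s : Fin k → ℕ, (∀ i, lt (s i) c) →
      ∃ m, ∀ (i : ι) (f : Fin (ar i) → Fin k ⊕ ℕ),
        ((∃ j b, f j = Sum.inr b) ∧ ∀ j b, f j = Sum.inr b → ¬ lt b c) →
        (R i (fun j => Sum.elim s id (f j)) ↔ R i (fun j => Sum.elim (r m) id (f j))) := by
  classical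
  have h' : ∀ i : {i // 2 ≤ ar i}, ∃ (s : ℕ) (φ : MSO (ar i) s) (P : Fin s → Set ℕ),
      ∀ v, R i v ↔ φ.Sat lt v P := fun i => h i i.2
  choose S φ P hR using h'
  have : Finite {i // 2 ≤ ar i} := hfin
  have hT : ∀ i : {i // 2 ≤ ar i}, Finite (T (qr (φ i)) (ar i) (S i)) := fun i => finT _ _ _
  let W : Type := (i : {i // 2 ≤ ar i}) → (Fin (ar i) → Option (Fin k)) → T (qr (φ i)) (ar i) (S i)
  have hW : Finite W := by
    show Finite ((i : {i // 2 ≤ ar i}) → (Fin (ar i) → Option (Fin k)) →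
      T (qr (φ i)) (ar i) (S i))
    infer_instance
  let Θ : ℕ → (Fin k → ℕ) → W := fun c s i g =>
    ty lt c (qr (φ i)) (ar i) (S i) (fun j => (g j).isSome) (elU g s) (P i)
  obtain ⟨n, ⟨e⟩⟩ := Finite.exists_equiv_fin W
  refine ⟨n, fun c => ?_⟩
  refine ⟨fun m => if h : ∃ s : Fin k → ℕ, (∀ i, lt (s i) c) ∧ e (Θ c s) = m then h.choose
    else fun _ => 0, fun s hs => ⟨e (Θ c s), ?_⟩⟩
  have hex : ∃ s' : Fin k → ℕ, (∀ i, lt (s' i) c) ∧ e (Θ c s') = e (Θ c s) := ⟨s, hs, rfl⟩
  beta_reduce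
  rw [dif_pos hex]
  obtain ⟨h1, h2⟩ := hex.choose_spec
  set s' := hex.choose
  have h3 : Θ c s' = Θ c s := e.injective h2
  intro i f hf
  by_cases hi : 2 ≤ ar i
  · have h4 : ty lt c (qr (φ ⟨i, hi⟩)) (ar i) (S ⟨i, hi⟩) (fun j => (skel f j).isSome)
        (elU (skel f) s) (P ⟨i, hi⟩) =
        ty lt c (qr (φ ⟨i, hi⟩)) (ar i) (S ⟨i, hi⟩) (fun j => (skel f j).isSome)
        (elU (skel f) s') (P ⟨i, hi⟩) :=
      congrFun (congrFun h3.symm ⟨i, hi⟩) (skel f)
    have h5 := comp tr tot irr (φ ⟨i, hi⟩) (qr (φ ⟨i, hi⟩)) (fun j => (skel f j).isSome)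
      (elU (skel f) s) (elU (skel f) s') (parW c f) (P ⟨i, hi⟩) (P ⟨i, hi⟩) le_rfl
      (fun j hj => by
        revert hj
        unfold elU skel
        rcases f j with t | b
        · intro _
          exact ⟨hs t, h1 t⟩
        · intro hj
          exact absurd hj (by simp)) (fun j _ => by
        unfold parW
        rcases hfj : f j with t | b
        · exact irr c
        · exact hf.2 j b hfj) (fun _ _ _ => Iff.rfl) h4
    rw [mrg_subst, mrg_subst] at h5
    rw [hR ⟨i, hi⟩, hR ⟨i, hi⟩]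
    exact h5
  · obtain ⟨⟨j, b, hj⟩, _⟩ := hf
    have h6 : ∀ j', f j' = Sum.inr b := by
      intro j'
      have : j' = j := by
        apply Fin.ext
        have := j.2
        have := j'.2
        omega
      rw [this, hj]
    have h7 : (fun j => Sum.elim s id (f j)) = fun j => Sum.elim s' id (f j) := by
      funext j'
      rw [h6 j']
      rfl
    rw [h7]

end Pool.Agent.N643.MN.Mso
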