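import Pool.Agent.N643.MN.Enc

set_option autoImplicit false

/-!
# The dichotomy for relations of bounded arity
-/

namespace Pool.Agent.N643.MN

open Set
open Pool.Agent.TH425.FF (cantor_cont)

variable {a : ℕ → ℕ} {x : XS a} {k : ℕ}

/-- The `k`-tuples `s` and `s'` satisfy the same atomic formulas with parameters above the
cut at `y`. -/
def SameRow (x : XS a) (k y : ℕ) (s s' : Fin k → ℕ) : Prop :=
  ∀ j (f : Fin (a j) → Fin k ⊕ ℕ), (∃ i b, f i = Sum.inr b) →
    (∀ i b, f i = Sum.inr b → x.1 b y = false) →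
    x.2 j (fun i => Sum.elim s id (f i)) = x.2 j (fun i => Sum.elim s' id (f i))

/-- The number of rows of `k`-tuples is bounded on each interval. -/
def LocFin (k : ℕ) (x : XS a) : Prop :=
  ∀ p q, ∃ n : ℕ, ∀ y, x.1 y p = false → x.1 q y = false →
    ∃ S : Fin n → (Fin k → ℕ), ∀ s : Fin k → ℕ, (∀ i, x.1 (s i) y = true) →
      ∃ m : Fin n, SameRow x k y s (S m)

/-- the `k`-tuple of a list -/
def tl (k : ℕ) (l : List ℕ) : Fin k → ℕ := fun i => l.getD i (l.headD 0)

theorem tl_mem {l : List ℕ} (hl : l ≠ []) (i : Fin k) : tl k l i ∈ l := by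
  unfold tl
  by_cases h : (i : ℕ) < l.length
  · rw [List.getD_eq_getElem _ _ h]
    exact List.getElem_mem h
  · rw [List.getD_eq_default _ _ (by omega)]
    cases l with
    | nil => exact absurd rfl hl
    | cons z l => simp

theorem Bel_le (hx : SL x.1) {y w : ℕ} (h : x.1 w y = false) {l : List ℕ}
    (hl : Bel (xo x) y l) : Bel (xo x) w l := by
  cases l with
  | nil => trivial
  | cons z l =>
    refine ⟨?_, hl.2⟩
    show x.1 z w = true
    rcases hx.tot z w with rfl | h1 | h1
    · rw [show x.1 z y = true from hl.1] at h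
      exact absurd h (by simp)
    · exact h1
    · have := hx.tr _ _ _ h1 hl.1
      rw [this] at h
      exact absurd h (by simp)

theorem Bel_append (hx : SL x.1) {y : ℕ} {l : List ℕ} (hl : Bel (xo x) y l) (t : List ℕ) :
    ∀ z, x.1 z y = false → (∀ w ∈ t, x.1 w y = false) →
      (Bel (xo x) z (t ++ l) ↔ Bel (xo x) z t) := by
  induction t with
  | nil =>
    intro z hz _
    rw [List.nil_append]
    exact ⟨fun _ => trivial, fun _ => Bel_le hx hz hl⟩
  | cons w t ih =>
    intro z hz ht
    rw [List.cons_append]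
    show (yl (xo x) w z ∧ Bel (xo x) w (t ++ l)) ↔ (yl (xo x) w z ∧ Bel (xo x) w t)
    rw [ih w (ht w List.mem_cons_self) fun v hv => ht v (List.mem_cons_of_mem _ hv)]

/-- the pattern of an argument tuple -/
theorem ev_append {t l : List ℕ} {m : ℕ} {F : List ℕ} (hk : l.length ≤ k) (hF : F.length = m)
    (h : ∀ i ∈ F, i < (t ++ l).length) :
    ∃ f : Fin m → Fin k ⊕ ℕ, (∀ i b, f i = Sum.inr b → b ∈ t) ∧
      (∀ i : Fin m, F.getD i 0 < t.length → ∃ b, f i = Sum.inr b) ∧
      ∀ l' : List ℕ, l'.length = l.length →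
        ev m F (t ++ l') = fun i => Sum.elim (tl k l') id (f i) := by
  classical
  have hlt : ∀ i : Fin m, F.getD i 0 < (t ++ l).length := fun i =>
    h _ (getD_mem (by rw [hF]; exact i.2))
  refine ⟨fun i => if h1 : F.getD i 0 < t.length then Sum.inr (t[F.getD i 0]'h1) else
    Sum.inl ⟨F.getD i 0 - t.length, by
      have := hlt i
      rw [List.length_append] at this
      omega⟩, ?_, ?_, ?_⟩
  · intro i b hb
    by_cases h1 : F.getD i 0 < t.length
    · simp only [dif_pos h1, Sum.inr.injEq] at hb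
      rw [← hb]
      exact List.getElem_mem _
    · simp only [dif_neg h1, reduceCtorEq] at hb
  · intro i h1
    exact ⟨_, dif_pos h1⟩
  · intro l' hl'
    funext i
    show (t ++ l').getD (F.getD i 0) 0 = _
    have h2 : F.getD i 0 < (t ++ l').length := by
      rw [List.length_append, hl', ← List.length_append]
      exact hlt i
    by_cases h1 : F.getD i 0 < t.length
    · simp only [dif_pos h1]
      rw [List.getD_eq_getElem _ _ h2, List.getElem_append_left h1]
      rfl
    · simp only [dif_neg h1]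
      rw [List.getD_eq_getElem _ _ h2, List.getElem_append_right (by omega)]
      show _ = l'.getD (F.getD i 0 - t.length) (l'.headD 0)
      exact (List.getD_eq_getElem l' (l'.headD 0) (by
        rw [List.length_append] at h2
        omega)).symm

theorem aE_append {y : ℕ} (hx : SL x.1) {l l' t : List ℕ} {r : ℕ}
    (hl : Bel (xo x) y l) (hl' : Bel (xo x) y l') (hn : l' ≠ []) (hlen : l.length = l'.length)
    (hk : l.length ≤ k) (hs : SameRow x k y (tl k l) (tl k l')) (ht : ∀ z ∈ t, x.1 z y = false)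
    (htn : t ≠ []) (h : aE x (t ++ l) r) : aE x (t ++ l') r := by
  obtain ⟨h1, h2, h3, h4, h5⟩ := h
  have hll : (t ++ l').length = (t ++ l).length := by
    rw [List.length_append, List.length_append, hlen]
  have hl'0 : 0 < l'.length := List.length_pos_iff.2 hn
  have ht0 : 0 < t.length := List.length_pos_iff.2 htn
  refine ⟨?_, h2, ?_, ?_, ?_⟩
  · cases t with
    | nil => exact absurd rfl htn
    | cons z t =>
      refine ⟨z, t ++ l', rfl, ?_⟩
      obtain ⟨z', l'', e, h6⟩ := h1
      rw [List.cons_append] at e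
      obtain ⟨rfl, rfl⟩ := List.cons.inj e
      rw [Bel_append hx hl t z (ht z List.mem_cons_self)
        fun v hv => ht v (List.mem_cons_of_mem _ hv)] at h6
      rw [Bel_append hx hl' t z (ht z List.mem_cons_self)
        fun v hv => ht v (List.mem_cons_of_mem _ hv)]
      exact h6
  · rw [hll]
    exact h3
  · rw [hll]
    exact h4
  · obtain ⟨f, f1, f2, f3⟩ := ev_append (t := t) hk h2 h3
    rw [f3 l' hlen.symm]
    rw [f3 l rfl] at h5
    rw [← hs _ f ?_ fun i b hb => ht b (f1 i b hb)]
    · exact h5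
    · rcases h4 with h4 | ⟨-, h4⟩
      · have h6 : 0 ∈ (dr r).2 := h4 0 (by rw [List.length_append]; omega)
        obtain ⟨i, hi, hi0⟩ := List.getElem_of_mem h6
        obtain ⟨b, hb⟩ := f2 ⟨i, by rw [← h2]; exact hi⟩ (by
          show (dr r).2.getD i 0 < t.length
          rw [List.getD_eq_getElem _ _ hi, hi0]
          exact ht0)
        exact ⟨_, b, hb⟩
      · rw [List.length_append] at h4
        omega

theorem SameRow.symm {y : ℕ} {s s' : Fin k → ℕ} (h : SameRow x k y s s') :
    SameRow x k y s' s := fun j f h1 h2 => (h j f h1 h2).symm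

theorem SameRow.trans {y : ℕ} {s s' s'' : Fin k → ℕ} (h : SameRow x k y s s')
    (h' : SameRow x k y s' s'') : SameRow x k y s s'' :=
  fun j f h1 h2 => (h j f h1 h2).trans (h' j f h1 h2)

theorem Bel_EX (x : XS a) (b : ℕ) (l : List ℕ) : Bel (EX x) b l ↔ Bel (xo x) b l :=
  Bel_congr (y := EX x) (y' := xo x) rfl b l

theorem row_same {y : ℕ} (hx : SL x.1) {l l' : List ℕ} (hl : Bel (xo x) y l)
    (hl' : Bel (xo x) y l') (hn : l ≠ []) (hlen : l.length = l'.length)
    (hk : l.length ≤ k) (hs : SameRow x k y (tl k l) (tl k l')) :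
    row (EX x) y l = row (EX x) y l' := by
  have hn' : l' ≠ [] := by
    rintro rfl
    exact hn (List.length_eq_zero_iff.1 hlen)
  funext t r
  unfold row
  rw [ya_EX, ya_EX]
  apply propext
  refine and_congr_right fun h1 => and_congr_right fun h2 => ?_
  have h1' : ∀ z ∈ t, x.1 z y = false := fun z hz => Bool.eq_false_iff.2 (h1 z hz)
  exact ⟨aE_append hx hl hl' hn' hlen hk hs h1' h2,
    aE_append hx hl' hl hn hlen.symm (hlen ▸ hk) hs.symm h1' h2⟩

theorem row_big {y : ℕ} (ha : ∀ j, a j ≤ k + 1) {l : List ℕ} (hk : k < l.length) :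
    row (EX x) y l = fun _ _ => False := by
  funext t r
  apply propext
  refine ⟨?_, False.elim⟩
  rintro ⟨-, h2, h3⟩
  rw [ya_EX] at h3
  obtain ⟨-, h4, -, h6, -⟩ := h3
  have ht0 : 0 < t.length := List.length_pos_iff.2 h2
  rw [List.length_append] at h6
  rcases h6 with h6 | ⟨-, h6⟩
  · have h7 : Finset.range (k + 2) ⊆ (dr r).2.toFinset := by
      intro i hi
      rw [Finset.mem_range] at hi
      exact List.mem_toFinset.2 (h6 i (by omega))
    have h8 := Finset.card_le_card h7
    rw [Finset.card_range] at h8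
    have h9 := (dr r).2.toFinset_card_le
    have := ha (dr r).1
    omega
  · omega

theorem rows_bound (ha : ∀ j, a j ≤ k + 1) (hx : SL x.1) {y n : ℕ}
    (h : ∃ S : Fin n → (Fin k → ℕ), ∀ s : Fin k → ℕ, (∀ i, x.1 (s i) y = true) →
      ∃ m : Fin n, SameRow x k y s (S m)) :
    (rows (EX x) y).encard ≤ ((k + 1) * n + 2 : ℕ) := by
  classical
  obtain ⟨S, hS⟩ := h
  have hex : ∀ q : Fin (k + 1) × Fin n, ∃ L : List ℕ, (∃ l : List ℕ, l.length = q.1 ∧
      Bel (xo x) y l ∧ SameRow x k y (tl k l) (S q.2)) →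
      L.length = q.1 ∧ Bel (xo x) y L ∧ SameRow x k y (tl k L) (S q.2) := by
    intro q
    by_cases h1 : ∃ l : List ℕ, l.length = q.1 ∧ Bel (xo x) y l ∧ SameRow x k y (tl k l) (S q.2)
    · obtain ⟨l, hl⟩ := h1
      exact ⟨l, fun _ => hl⟩
    · exact ⟨[], fun h2 => absurd h2 h1⟩
  choose L hL using hex
  have hsub : rows (EX x) y ⊆ range (fun q => row (EX x) y (L q)) ∪
      {row (EX x) y [], fun _ _ => False} := by
    rintro ρ ⟨l, hl, rfl⟩
    rw [Bel_EX] at hl
    by_cases h0 : l = []
    · rw [h0]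
      exact Or.inr (Or.inl rfl)
    by_cases hk : k < l.length
    · exact Or.inr (Or.inr (row_big ha hk))
    push Not at hk
    left
    obtain ⟨m, hm⟩ := hS (tl k l) fun i => Bel_lt hx hl _ (tl_mem h0 i)
    obtain ⟨h1, h2, h3⟩ := hL (⟨l.length, by omega⟩, m) ⟨l, rfl, hl, hm⟩
    refine ⟨(⟨l.length, by omega⟩, m), ?_⟩
    exact (row_same hx hl h2 h0 h1.symm hk (hm.trans h3.symm)).symm
  refine (Set.encard_le_encard hsub).trans ((Set.encard_union_le _ _).trans ?_)
  have h1 : (range fun q : Fin (k + 1) × Fin n => row (EX x) y (L q)).encard ≤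
      ((k + 1) * n : ℕ) := by
    rw [← Set.image_univ]
    refine (Set.encard_image_le _ _).trans ?_
    rw [Set.encard_univ, ENat.card_eq_coe_fintype_card, Fintype.card_prod, Fintype.card_fin,
      Fintype.card_fin]
  have h2 : ({row (EX x) y [], fun _ _ => False} : Set (List ℕ → ℕ → Prop)).encard ≤ 2 :=
    (Set.encard_insert_le _ _).trans (by
      rw [Set.encard_singleton]
      norm_num)
  calc _ ≤ (((k + 1) * n : ℕ) : ℕ∞) + 2 := add_le_add h1 h2
    _ = _ := by push_cast; ring

theorem Yc_EX (ha : ∀ j, a j ≤ k + 1) (hx : SL x.1) (h : LocFin k x) : Yc (EX x) where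
  irr := fun _ => hx.nn
  tr := hx.tr
  tot := hx.tot
  dec := fun l r h1 => by
    rw [ya_EX] at h1
    obtain ⟨⟨z, l', e, h2⟩, -⟩ := h1
    exact ⟨z, l', e, (Bel_EX x z l').2 h2⟩
  fin := fun p q => by
    obtain ⟨n, hn⟩ := h p q
    refine ⟨(k + 1) * n + 2, fun b h1 h2 => ?_⟩
    exact rows_bound ha hx (hn b (Bool.eq_false_iff.2 h1) (Bool.eq_false_iff.2 h2))

theorem SL_iso {σ : Equiv.Perm ℕ} {x x' : XS a} (h : XI σ x x') (hx : SL x.1) : SL x'.1 := by
  have h1 : ∀ u v, x'.1 u v = x.1 (σ.symm u) (σ.symm v) := by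
    intro u v
    rw [← h.1, σ.apply_symm_apply, σ.apply_symm_apply]
  refine ⟨fun u => ?_, fun u v w => ?_, fun u v => ?_⟩
  · rw [h1]
    exact hx.irr _
  · rw [h1, h1, h1]
    exact hx.tr _ _ _
  · rw [h1, h1]
    rcases hx.tot (σ.symm u) (σ.symm v) with h2 | h2
    · exact Or.inl (σ.symm.injective h2)
    · exact Or.inr h2

section meas

theorem my_o (u v : ℕ) : Measurable fun y : YS => yl y u v := by
  have h : Measurable fun y : YS => y.1 u v :=
    (measurable_pi_apply v).comp ((measurable_pi_apply u).comp measurable_fst)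
  exact measurableSet_setOfPred.1 (h (measurableSet_singleton true))

theorem my_a (l : List ℕ) (r : ℕ) : Measurable fun y : YS => ya y l r := by
  have h : Measurable fun y : YS => y.2 l r :=
    (measurable_pi_apply r).comp ((measurable_pi_apply l).comp measurable_snd)
  exact measurableSet_setOfPred.1 (h (measurableSet_singleton true))

theorem my_D (j : ℕ) (t : Fin (a j) → ℕ) :
    Measurable fun y : YS => (DX a y).2 j t = true := by
  simp only [DX_iff]
  exact Measurable.exists fun l => Measurable.exists fun F => measurable_const.and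
    (measurable_const.and (measurable_const.and (my_a _ _)))

theorem m_DX : Measurable (DX a) := by
  have h1 : Measurable fun y : YS => (DX a y).1 := measurable_fst
  have h2 : Measurable fun y : YS => (DX a y).2 :=
    measurable_pi_lambda _ fun j => measurable_pi_lambda _ fun t =>
      measurable_to_bool (my_D j t).setOf
  exact h1.prodMk h2

theorem my_Bel (b : ℕ) (l : List ℕ) : Measurable fun y : YS => Bel (xo (DX a y)) b l := by
  induction l generalizing b with
  | nil => exact measurable_const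
  | cons z l ih => exact (my_o z b).and (ih z)

theorem my_E : Measurable fun y : YS => EX (DX a y) = y := by
  have e : (fun y : YS => EX (DX a y) = y) =
      fun y : YS => ∀ l r, aE (DX a y) l r ↔ ya y l r := by
    funext y
    apply propext
    constructor
    · intro h l r
      rw [← ya_EX, h]
    · intro h
      refine Prod.ext rfl ?_
      funext l r
      exact Bool.eq_iff_iff.2 ((ya_EX _ l r).trans (h l r))
  rw [e]
  refine Measurable.forall fun l => Measurable.forall fun r => Measurable.iff ?_ (my_a l r)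
  unfold aE
  refine (Measurable.exists fun z => Measurable.exists fun l' => measurable_const.and
    (my_Bel z l')).and (measurable_const.and (measurable_const.and
    (measurable_const.and (my_D _ _))))

end meas

/-- the dichotomy for relations of bounded arity -/
theorem vc_X (k : ℕ) (ha : ∀ j, a j ≤ k + 1) (B : Set (XS a)) (hBm : MeasurableSet B)
    (hBi : ∀ x ∈ B, ∀ x' σ, XI σ x x' → x' ∈ B) (hB : ∀ x ∈ B, SL x.1 ∧ LocFin k x) :
    (∃ f : ℕ → XS a, ∀ x ∈ B, ∃ n σ, XI σ (f n) x) ∨
    (∃ g : (ℕ → Bool) → XS a, Continuous g ∧ (∀ c, g c ∈ B) ∧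
      ∀ c d, (∃ σ, XI σ (g c) (g d)) → c = d) := by
  let C : Set YS := {y | DX a y ∈ B ∧ EX (DX a y) = y}
  have hCm : MeasurableSet C := (m_DX hBm).inter my_E.setOf
  have hCi : ∀ y ∈ C, ∀ y' σ, YI σ y y' → y' ∈ C := by
    intro y hy y' σ h
    have h1 : XI σ (DX a y) (DX a y') := DX_iso h
    refine ⟨hBi _ hy.1 _ σ h1, ?_⟩
    have h2 := EX_iso h1
    rw [hy.2] at h2
    exact YI_uniq h2 h
  have hCy : ∀ y ∈ C, Yc y := by
    intro y hy
    rw [← hy.2]
    exact Yc_EX ha (hB _ hy.1).1 (hB _ hy.1).2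
  have hmem : ∀ x ∈ B, EX x ∈ C := by
    intro x hx
    have e : DX a (EX x) = x := DX_EX (hB x hx).1
    exact ⟨by rw [e]; exact hx, by rw [e]⟩
  rcases vc_Y C hCm hCi hCy with ⟨f, hf⟩ | ⟨g, hg1, hg2, hg3⟩
  · left
    refine ⟨fun n => DX a (f n), fun x hx => ?_⟩
    obtain ⟨n, σ, h⟩ := hf _ (hmem x hx)
    refine ⟨n, σ, ?_⟩
    have h1 : XI σ (DX a (f n)) (DX a (EX x)) := DX_iso h
    rwa [DX_EX (hB x hx).1] at h1
  · right
    have hm : Measurable fun c => DX a (g c) := by
      have b0 : BorelSpace (ℕ → Bool) := Pi.borelSpace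
      have b1 := borel_YS
      exact m_DX.comp hg1.measurable
    have hinj : ∀ c d, (∃ σ, XI σ (DX a (g c)) (DX a (g d))) → c = d := by
      rintro c d ⟨σ, h⟩
      refine hg3 c d ⟨σ, ?_⟩
      have h1 := EX_iso h
      rwa [(hg2 c).2, (hg2 d).2] at h1
    have b0 : BorelSpace (ℕ → Bool) := Pi.borelSpace
    have b1 : BorelSpace (ℕ → ℕ → Bool) := Pi.borelSpace
    have b2 : ∀ i : ℕ, BorelSpace ((Fin (a i) → ℕ) → Bool) := fun i => Pi.borelSpace
    have b3 : BorelSpace ((i : ℕ) → (Fin (a i) → ℕ) → Bool) := Pi.borelSpace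
    have b4 : BorelSpace (XS a) := Prod.borelSpace
    obtain ⟨r, hr1, hr2, hr3⟩ := cantor_cont _ hm
    exact ⟨fun c => DX a (g (r c)), hr3, fun c => (hg2 _).1, fun c d h => hr2 (hinj _ _ h)⟩

end Pool.Agent.N643.MN
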