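import Pool.Agent.N643.MN.Base

set_option autoImplicit false

/-!
# Transport of presentations
-/

namespace Pool.Agent.N643.MN

open Set
open Pool.Agent.N643.AX (SM Par AC cl piso_raw cl_raw)
open Pool.Agent.H899R2.VP (Adj PIso IsoOn)
open Pool.Agent.H566P (lt ac co mk)

/-- `σ` is an isomorphism. -/
def YI (σ : Equiv.Perm ℕ) (y y' : YS) : Prop :=
  (∀ a b, yl y' (σ a) (σ b) ↔ yl y a b) ∧ ∀ l r, ya y' (l.map σ) r ↔ ya y l r

/-- `ψ` is an isomorphism. -/
def NI (ψ : Equiv.Perm ℕ) (N N' : SM) : Prop :=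
  (∀ u v, Adj N' (ψ u) (ψ v) ↔ Adj N u v) ∧ (∀ u v, lt N'.2 (ψ u) (ψ v) ↔ lt N.2 u v) ∧
  (∀ s u v, ac N'.2 s (ψ u) (ψ v) ↔ ac N.2 s u v) ∧ ∀ k u, co N'.2 k (ψ u) ↔ co N.2 k u

theorem map_symm (σ : Equiv.Perm ℕ) (l : List ℕ) : (l.map σ).map σ.symm = l := by
  rw [List.map_map]
  simp

theorem map_symm' (σ : Equiv.Perm ℕ) (l : List ℕ) : (l.map σ.symm).map σ = l := by
  rw [List.map_map]
  simp

section yi

variable {σ : Equiv.Perm ℕ} {y y' : YS} {a b : ℕ} {f g : List ℕ → ℕ} {n : ℕ} {c : CT}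

theorem YI.symm (h : YI σ y y') : YI σ.symm y' y := by
  refine ⟨fun a b => ?_, fun l r => ?_⟩
  · rw [← h.1, σ.apply_symm_apply, σ.apply_symm_apply]
  · rw [← h.2, map_symm']

theorem YI.refl (y : YS) : YI (Equiv.refl ℕ) y y :=
  ⟨fun _ _ => Iff.rfl, fun l r => by simp⟩

theorem YI.trans {τ : Equiv.Perm ℕ} {y'' : YS} (h : YI σ y y') (h' : YI τ y' y'') :
    YI (σ.trans τ) y y'' := by
  refine ⟨fun a b => ?_, fun l r => ?_⟩
  · rw [← h.1, ← h'.1]
    rfl
  · rw [← h.2, ← h'.2, List.map_map]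
    rfl

theorem Bel_map (h : YI σ y y') (a : ℕ) (l : List ℕ) : Bel y' (σ a) (l.map σ) ↔ Bel y a l := by
  induction l generalizing a with
  | nil => exact Iff.rfl
  | cons z l ih =>
    show (yl y' (σ z) (σ a) ∧ Bel y' (σ z) (l.map σ)) ↔ _
    rw [h.1, ih]
    exact Iff.rfl

theorem row_map (h : YI σ y y') (a : ℕ) (l t : List ℕ) (r : ℕ) :
    row y' (σ a) (l.map σ) (t.map σ) r ↔ row y a l t r := by
  unfold row
  rw [← List.map_append, h.2]
  refine and_congr ?_ (and_congr ?_ Iff.rfl)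
  · constructor
    · intro h1 z hz h2
      exact h1 (σ z) (List.mem_map_of_mem hz) ((h.1 _ _).2 h2)
    · intro h1 z hz h2
      obtain ⟨w, hw, rfl⟩ := List.mem_map.1 hz
      exact h1 w hw ((h.1 _ _).1 h2)
  · rw [not_iff_not]
    exact List.map_eq_nil_iff

theorem row_eq_map (h : YI σ y y') (a : ℕ) (l l' : List ℕ) :
    row y' (σ a) (l.map σ) = row y' (σ a) (l'.map σ) ↔ row y a l = row y a l' := by
  constructor
  · intro e
    funext t r
    have := congrFun (congrFun e (t.map σ)) r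
    rw [eq_iff_iff, row_map h, row_map h] at this
    exact propext this
  · intro e
    funext t r
    have := congrFun (congrFun e (t.map σ.symm)) r
    rw [eq_iff_iff, ← row_map h, ← row_map h, map_symm'] at this
    exact propext this

theorem Bel_map' (h : YI σ y y') (a : ℕ) (l : List ℕ) :
    Bel y' (σ a) l ↔ Bel y a (l.map σ.symm) := by
  rw [← Bel_map h, map_symm']

theorem row_eq_map' (h : YI σ y y') (a : ℕ) (l l' : List ℕ) :
    row y' (σ a) l = row y' (σ a) l' ↔ row y a (l.map σ.symm) = row y a (l'.map σ.symm) := by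
  rw [← row_eq_map h, map_symm', map_symm']

theorem Lab.map (h : YI σ y y') (hf : Lab y a f n) :
    Lab y' (σ a) (fun l => f (l.map σ.symm)) n := by
  refine ⟨fun l hl => ?_, fun l l' hl hl' => ?_, fun i => ?_⟩
  · exact hf.out _ fun h1 => hl ((Bel_map' h a l).2 h1)
  · rw [row_eq_map' h]
    exact hf.inj _ _ ((Bel_map' h a l).1 hl) ((Bel_map' h a l').1 hl')
  · rw [hf.rng]
    constructor
    · rintro ⟨l, h1, h2⟩
      refine ⟨l.map σ, (Bel_map h a l).2 h1, ?_⟩
      rw [map_symm]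
      exact h2
    · rintro ⟨l, h1, h2⟩
      exact ⟨l.map σ.symm, (Bel_map' h a l).1 h1, h2⟩

theorem Col.map (h : YI σ y y') (hc : Col y a f b g c) :
    Col y' (σ a) (fun l => f (l.map σ.symm)) (σ b) (fun l => g (l.map σ.symm)) c := by
  refine ⟨fun i => ?_, fun l hl => ?_, fun e => ?_, fun e => ?_, fun e l hl => ?_, ?_⟩
  · rw [hc.len]
    constructor
    · rintro ⟨l, h1, h2⟩
      refine ⟨l.map σ, (Bel_map h a l).2 h1, ?_⟩
      rw [map_symm]
      exact h2
    · rintro ⟨l, h1, h2⟩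
      exact ⟨l.map σ.symm, (Bel_map' h a l).1 h1, h2⟩
  · exact hc.F _ ((Bel_map' h a l).1 hl)
  · exact hc.G0 (σ.injective e)
  · exact hc.Gl fun e' => e (by rw [e'])
  · rw [List.map_cons, σ.symm_apply_apply]
    exact hc.G (fun e' => e (by rw [e'])) _ ((Bel_map' h a l).1 hl)
  · rw [hc.ini]
    rfl

theorem CoP_map (h : YI σ y y') (k : ℕ) :
    CoP y' (σ a) (fun l => f (l.map σ.symm)) k ↔ CoP y a f k := by
  unfold CoP
  constructor
  · rintro ⟨l, h1, h2, h3⟩
    refine ⟨l.map σ.symm, (Bel_map' h a l).1 h1, h2, ?_⟩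
    rw [← h.2, List.map_cons, map_symm']
    exact h3
  · rintro ⟨l, h1, h2, h3⟩
    refine ⟨l.map σ, (Bel_map h a l).2 h1, ?_, ?_⟩
    · show f ((l.map σ).map σ.symm) = _
      rw [map_symm]
      exact h2
    · rw [← List.map_cons, h.2]
      exact h3

theorem Lab.of_map (h : YI σ y y') (hf : Lab y' (σ a) (fun l => f (l.map σ.symm)) n) :
    Lab y a f n := by
  have h1 := hf.map h.symm
  rw [σ.symm_apply_apply] at h1
  have e : (fun l => (fun l => f (List.map (⇑(Equiv.symm σ)) l)) (List.map (⇑σ.symm.symm) l)) =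
      f := by
    funext l
    simp only [Equiv.symm_symm]
    rw [map_symm]
  rw [e] at h1
  exact h1

theorem rows_map (h : YI σ y y') (a : ℕ) : (rows y' (σ a)).encard = (rows y a).encard := by
  have e : rows y' (σ a) =
      (fun ρ : List ℕ → ℕ → Prop => fun t r => ρ (t.map σ.symm) r) '' rows y a := by
    ext ρ
    constructor
    · rintro ⟨l, hl, rfl⟩
      refine ⟨row y a (l.map σ.symm), ⟨_, (Bel_map' h a l).1 hl, rfl⟩, ?_⟩
      funext t r
      have := row_map h a (l.map σ.symm) (t.map σ.symm) r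
      rw [map_symm', map_symm'] at this
      exact propext this.symm
    · rintro ⟨_, ⟨l, hl, rfl⟩, rfl⟩
      refine ⟨l.map σ, (Bel_map h a l).2 hl, ?_⟩
      funext t r
      have := row_map h a l (t.map σ.symm) r
      rw [map_symm'] at this
      exact propext this
  rw [e]
  refine Function.Injective.encard_image ?_ _
  intro ρ ρ' h1
  funext t r
  have := congrFun (congrFun h1 (t.map σ)) r
  simp only at this
  rwa [map_symm] at this

theorem Yc.map (h : YI σ y y') (hy : Yc y) : Yc y' := by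
  have hs := h.symm
  refine ⟨fun a h1 => ?_, fun a b c h1 h2 => ?_, fun a b => ?_, fun l r h1 => ?_, fun p q => ?_⟩
  · exact hy.irr _ ((hs.1 a a).2 h1)
  · exact (hs.1 a c).1 (hy.tr _ _ _ ((hs.1 a b).2 h1) ((hs.1 b c).2 h2))
  · rcases hy.tot (σ.symm a) (σ.symm b) with h1 | h1 | h1
    · exact Or.inl (σ.symm.injective h1)
    · exact Or.inr (Or.inl ((hs.1 _ _).1 h1))
    · exact Or.inr (Or.inr ((hs.1 _ _).1 h1))
  · obtain ⟨z, l', e, h2⟩ := hy.dec (l.map σ.symm) r ((hs.2 l r).2 h1)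
    refine ⟨σ z, l'.map σ, ?_, (Bel_map h z l').2 h2⟩
    rw [← List.map_cons, ← e, map_symm']
  · obtain ⟨n, hn⟩ := hy.fin (σ.symm p) (σ.symm q)
    refine ⟨n, fun a h1 h2 => ?_⟩
    have h3 := hn (σ.symm a) (fun h4 => h1 ((hs.1 _ _).1 h4)) (fun h4 => h2 ((hs.1 _ _).1 h4))
    rw [← rows_map h, σ.apply_symm_apply] at h3
    exact h3

end yi

section ni

variable {ψ : Equiv.Perm ℕ} {N N' : SM}

theorem NI.symm (h : NI ψ N N') : NI ψ.symm N' N := by
  refine ⟨fun a b => ?_, fun a b => ?_, fun s a b => ?_, fun k a => ?_⟩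
  · rw [← h.1, ψ.apply_symm_apply, ψ.apply_symm_apply]
  · rw [← h.2.1, ψ.apply_symm_apply, ψ.apply_symm_apply]
  · rw [← h.2.2.1, ψ.apply_symm_apply, ψ.apply_symm_apply]
  · rw [← h.2.2.2, ψ.apply_symm_apply]

theorem NI.cl (h : NI ψ N N') (u v : ℕ) : cl N' (ψ u) (ψ v) = cl N u v := by
  unfold AX.cl
  congr 1
  ext s
  exact h.2.2.1 s u v

theorem isoOn_of_NI (h : NI ψ N N') : IsoOn N N' univ univ ∅ := by
  refine ⟨{w | w.2 = ψ w.1}, empty_subset _, fun w _ => ⟨mem_univ _, mem_univ _⟩,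
    piso_raw.2 ⟨?_, ?_, ?_, ?_, ?_⟩, fun x _ => ⟨ψ x, rfl⟩, fun x _ => ⟨ψ.symm x, ?_⟩⟩
  · intro u hu v hv
    rw [show u.2 = ψ u.1 from hu, show v.2 = ψ v.1 from hv]
    exact ψ.injective.eq_iff.symm
  · intro u hu v hv
    rw [show u.2 = ψ u.1 from hu, show v.2 = ψ v.1 from hv]
    exact (h.1 _ _).symm
  · intro u hu v hv
    rw [show u.2 = ψ u.1 from hu, show v.2 = ψ v.1 from hv]
    exact (h.2.1 _ _).symm
  · intro s u hu v hv
    rw [show u.2 = ψ u.1 from hu, show v.2 = ψ v.1 from hv]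
    exact (h.2.2.1 _ _ _).symm
  · intro k u hu
    rw [show u.2 = ψ u.1 from hu]
    exact (h.2.2.2 _ _).symm
  · exact (ψ.apply_symm_apply x).symm

theorem NI_of_isoOn (h : IsoOn N N' univ univ ∅) : ∃ ψ, NI ψ N N' := by
  obtain ⟨e, -, he⟩ := h.exists_equiv
  obtain ⟨h1, h2, h3, h4, h5⟩ := piso_raw.1 he
  exact ⟨e, fun u v => (h2 (u, e u) rfl (v, e v) rfl).symm,
    fun u v => (h3 (u, e u) rfl (v, e v) rfl).symm,
    fun s u v => (h4 s (u, e u) rfl (v, e v) rfl).symm, fun k u => (h5 k (u, e u) rfl).symm⟩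

end ni

section pres

variable {σ ψ : Equiv.Perm ℕ} {y y' : YS} {N N' : SM} {β β' : ℕ → ℕ} {Λ Λ' : ℕ → List ℕ → ℕ}

theorem pres_y (h : YI σ y y') (hP : Pres y N β Λ) :
    Pres y' N (fun u => σ (β u)) (fun u l => Λ u (l.map σ.symm)) where
  adj := fun u v => by rw [hP.adj, h.1]
  lab := fun u => by
    obtain ⟨n, hn⟩ := hP.lab u
    exact ⟨n, hn.map h⟩
  inj := fun u v h1 h2 => by
    refine hP.inj u v (σ.injective h1) fun l => ?_
    have := h2 (l.map σ)
    rwa [map_symm] at this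
  sur1 := fun a => by
    obtain ⟨u, hu⟩ := hP.sur1 (σ.symm a)
    exact ⟨u, by simp only [hu, σ.apply_symm_apply]⟩
  sur2 := fun u n hn p hp => by
    obtain ⟨v, hv1, hv2⟩ := hP.sur2 u n (hn.of_map h) p hp
    refine ⟨v, by simp only [hv1], fun l hl => ?_⟩
    exact hv2 _ ((Bel_map' h _ l).1 hl)
  nl := hP.nl
  col := hP.col
  cle := fun u v h1 => (hP.cle u v fun h2 => h1 ((h.1 _ _).2 h2)).map h
  can := hP.can
  sy := hP.sy
  co := fun k u => by rw [hP.co, CoP_map h]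

theorem pres_N (h : NI ψ N N') (hP : Pres y N β Λ) :
    Pres y N' (fun u => β (ψ.symm u)) (fun u => Λ (ψ.symm u)) where
  adj := fun u v => by rw [← hP.adj, h.symm.1]
  lab := fun u => hP.lab _
  inj := fun u v h1 h2 => ψ.symm.injective (hP.inj _ _ h1 h2)
  sur1 := fun a => by
    obtain ⟨u, hu⟩ := hP.sur1 a
    exact ⟨ψ u, by simp only [ψ.symm_apply_apply, hu]⟩
  sur2 := fun u n hn p hp => by
    obtain ⟨v, hv1, hv2⟩ := hP.sur2 _ n hn p hp
    exact ⟨ψ v, by simp only [ψ.symm_apply_apply, hv1], by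
      simp only [ψ.symm_apply_apply]; exact hv2⟩
  nl := fun u v => by rw [← h.symm.2.1]; exact hP.nl _ _
  col := fun s u v => by rw [← h.symm.2.2.1, hP.col, h.symm.cl]
  cle := fun u v h1 => by
    rw [← h.symm.cl]
    exact hP.cle _ _ h1
  can := fun u v => by rw [← h.symm.cl]; exact hP.can _ _
  sy := fun u v h1 => by
    rw [← h.symm.cl, ← h.symm.cl]
    exact hP.sy _ _ ((h.symm.1 _ _).2 h1)
  co := fun k u => by rw [← h.symm.2.2.2, hP.co]

/-- relabelling -/
theorem lab_perm {a : ℕ} {f g : List ℕ → ℕ} {n m : ℕ} (hf : Lab y a f n) (hg : Lab y a g m) :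
    ∃ p : List ℕ, p.Perm (List.range n) ∧ ∀ l, Bel y a l → g l = p.getD (f l) 0 := by
  classical
  have hnm := hf.uniq hg
  subst hnm
  have hex : ∀ i, ∃ l, i < n → Bel y a l ∧ f l = i := by
    intro i
    by_cases hi : i < n
    · obtain ⟨l, hl⟩ := (hf.rng i).1 hi
      exact ⟨l, fun _ => hl⟩
    · exact ⟨[], fun h => absurd h hi⟩
  choose L hL using hex
  have hF : ∀ l, Bel y a l → g (L (f l)) = g l := by
    intro l hl
    obtain ⟨h1, h2⟩ := hL (f l) (hf.lt hl)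
    exact (hg.inj _ _ h1 hl).2 ((hf.inj _ _ h1 hl).1 h2)
  refine ⟨(List.range n).map fun i => g (L i), ?_, fun l hl => ?_⟩
  · refine (List.perm_ext_iff_of_nodup ?_ List.nodup_range).2 fun j => ?_
    · refine List.Nodup.map_on ?_ List.nodup_range
      intro i hi j hj hij
      rw [List.mem_range] at hi hj
      have h1 := (hg.inj _ _ (hL i hi).1 (hL j hj).1).1 hij
      have h2 := (hf.inj _ _ (hL i hi).1 (hL j hj).1).2 h1
      rw [(hL i hi).2, (hL j hj).2] at h2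
      exact h2
    · rw [List.mem_map]
      constructor
      · rintro ⟨i, hi, rfl⟩
        exact List.mem_range.2 (hg.lt (hL i (List.mem_range.1 hi)).1)
      · intro hj
        obtain ⟨l, hl, rfl⟩ := (hg.rng j).1 (List.mem_range.1 hj)
        exact ⟨f l, List.mem_range.2 (hf.lt hl), hF l hl⟩
  · rw [List.getD_eq_getElem _ _ (by rw [List.length_map, List.length_range]; exact hf.lt hl),
      List.getElem_map, List.getElem_range, hF l hl]

theorem Pres.find (hP : Pres y N β Λ) {a : ℕ} {g : List ℕ → ℕ} {m : ℕ} (hg : Lab y a g m) :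
    ∃ u, β u = a ∧ ∀ l, Λ u l = g l := by
  obtain ⟨v, hv⟩ := hP.sur1 a
  obtain ⟨n, hn⟩ := hP.lab v
  subst hv
  obtain ⟨p, hp1, hp2⟩ := lab_perm hn hg
  obtain ⟨u, hu1, hu2⟩ := hP.sur2 v n hn p hp1
  refine ⟨u, hu1, ?_⟩
  obtain ⟨k, hk⟩ := hP.lab u
  rw [hu1] at hk
  exact hk.ext hg fun l hl => by rw [hu2 l hl, hp2 l hl]

/-- two structures presented by the same ordered structure are isomorphic -/
theorem pres_iso (hy : Yc y) (hP : Pres y N β Λ) (hP' : Pres y N' β' Λ') : ∃ ψ, NI ψ N N' := by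
  have h1 : ∀ u, ∃ v, β' v = β u ∧ ∀ l, Λ' v l = Λ u l := fun u => by
    obtain ⟨n, hn⟩ := hP.lab u
    exact hP'.find hn
  have h2 : ∀ u, ∃ v, β v = β' u ∧ ∀ l, Λ v l = Λ' u l := fun u => by
    obtain ⟨n, hn⟩ := hP'.lab u
    exact hP.find hn
  choose f f1 f2 using h1
  choose g g1 g2 using h2
  refine ⟨⟨f, g, fun u => ?_, fun u => ?_⟩, ?_, ?_, ?_, ?_⟩
  · exact hP.inj _ _ (by rw [g1, f1]) fun l => by rw [g2, f2]
  · exact hP'.inj _ _ (by rw [f1, g1]) fun l => by rw [f2, g2]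
  · intro u v
    show Adj N' (f u) (f v) ↔ Adj N u v
    rw [hP'.adj, hP.adj, f1, f1]
  · intro u v
    exact ⟨fun h => absurd h (hP'.nl _ _), fun h => absurd h (hP.nl _ _)⟩
  · have key : ∀ u v, ¬ Adj N v u → cl N' (f u) (f v) = cl N u v := by
      intro u v h
      have k1 : ¬ yl y (β v) (β u) := fun h3 => h ((hP.adj _ _).2 h3)
      have c1 := hP.cle u v k1
      have c2 := hP'.cle (f u) (f v) (by rw [f1, f1]; exact k1)
      rw [f1, f1, funext (f2 u), funext (f2 v)] at c2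
      rw [← hP.can, ← hP'.can, c1.uniq c2]
    intro s u v
    show ac N'.2 s (f u) (f v) ↔ ac N.2 s u v
    rw [hP'.col, hP.col]
    by_cases h : Adj N v u
    · have h3 : ¬ Adj N u v := fun h4 => (pres_ac hy hP).irr _ ((pres_ac hy hP).tr _ _ _ h h4)
      have h4 : Adj N' (f v) (f u) := by
        rw [hP'.adj, f1, f1, ← hP.adj]
        exact h
      rw [← hP.sy _ _ h, ← hP'.sy _ _ h4, key v u h3]
    · rw [key u v h]
  · intro k u
    show co N'.2 k (f u) ↔ co N.2 k u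
    rw [hP'.co, hP.co, f1, funext (f2 u)]

end pres

end Pool.Agent.N643.MN
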