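import Pool.Agent.N643.MN.Row
import Pool.Agent.H533R2.VS.All2
import Pool.Agent.TH425.FF.Cun

set_option autoImplicit false

/-!
# Expansions by unary predicates and by parameters
-/

namespace Pool.Agent.N643.MN

open Set MeasureTheory
open Pool.Agent.H533R2.VO (RS RIso VC Dich)
open Pool.Agent.H533R2.VS (US UIso UDich VCu Coan Inv act)

variable {a : ℕ → ℕ} {k : ℕ}

/-- arities with a binary relation in front -/
def bb (a : ℕ → ℕ) : ℕ → ℕ
  | 0 => 2
  | j + 1 => a j

/-- the structure with a binary relation in front -/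
def un (z : RS (bb a)) : XS a := (fun m n => z 0 ![m, n], fun j => z (j + 1))

/-- the class -/
def Vk (k : ℕ) (z : RS (bb a)) : Prop := SL (un z).1 ∧ LocFin k (un z)

/-- arities with unary predicates -/
def au (a : ℕ → ℕ) (j : ℕ) : ℕ := if j % 2 = 0 then a (j / 2) else 1

theorem au0 (j : ℕ) : au a (2 * j) = a j := by
  unfold au
  rw [if_pos (by omega), show 2 * j / 2 = j by omega]

theorem au1 (j : ℕ) : au a (2 * j + 1) = 1 := by
  unfold au
  rw [if_neg (by omega)]

theorem au_le (ha : ∀ j, a j ≤ k + 1) (j : ℕ) : au a j ≤ k + 1 := by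
  unfold au
  split_ifs
  · exact ha _
  · omega

/-- decoding -/
def fx (x : XS (au a)) : US (bb a) :=
  (fun i => match i with
    | 0 => fun v => x.1 (v (0 : Fin 2)) (v (1 : Fin 2))
    | j + 1 => fun v => x.2 (2 * j) (fun t => v (Fin.cast (au0 j) t)),
   fun j u => x.2 (2 * j + 1) fun _ => u)

/-- encoding -/
def tx (y : US (bb a)) : XS (au a) :=
  (fun m n => y.1 0 ![m, n], fun j v =>
    if h : j % 2 = 0 then
      y.1 (j / 2 + 1) (fun t => v (Fin.cast (by unfold au; rw [if_pos h]; rfl) t))
    else y.2 (j / 2) (v (Fin.cast (by unfold au; rw [if_neg h]) (0 : Fin 1))))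

theorem ix_cong (y : RS (bb a)) {m j : ℕ} (hm : m = j) (w : Fin (a m) → ℕ) (v : Fin (a j) → ℕ)
    (h : ∀ t, w t = v (Fin.cast (by rw [hm]) t)) : y (m + 1) w = y (j + 1) v := by
  subst hm
  have e : w = v := funext h
  rw [e]

theorem fx_tx (y : US (bb a)) : fx (tx y) = y := by
  refine Prod.ext ?_ ?_
  · funext i v
    cases i with
    | zero =>
      show y.1 0 ![v (0 : Fin 2), v (1 : Fin 2)] = y.1 0 v
      have e : ∀ v : Fin 2 → ℕ, (![v 0, v 1] : Fin 2 → ℕ) = v := by
        intro v
        funext t
        fin_cases t <;> rfl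
      exact congrArg (y.1 0) (e v)
    | succ j =>
      show (tx y).2 (2 * j) (fun t => v (Fin.cast (au0 j) t)) = y.1 (j + 1) v
      unfold tx
      simp only
      rw [dif_pos (by omega)]
      exact ix_cong y.1 (by omega) _ _ fun t => rfl
  · funext j u
    show (tx y).2 (2 * j + 1) (fun _ => u) = y.2 j u
    unfold tx
    simp only
    rw [dif_neg (by omega), show (2 * j + 1) / 2 = j by omega]

theorem m_fx : Measurable (fx : XS (au a) → US (bb a)) := by
  refine Measurable.prodMk ?_ ?_
  · refine measurable_pi_lambda _ fun i => measurable_pi_lambda _ fun v => ?_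
    cases i with
    | zero =>
      exact (measurable_pi_apply (v (1 : Fin 2))).comp ((measurable_pi_apply (v (0 : Fin 2))).comp measurable_fst)
    | succ j => exact (measurable_pi_apply _).comp ((measurable_pi_apply (2 * j)).comp measurable_snd)
  · refine measurable_pi_lambda _ fun j => measurable_pi_lambda _ fun u => ?_
    exact (measurable_pi_apply _).comp ((measurable_pi_apply (2 * j + 1)).comp measurable_snd)

theorem c_fx : Continuous (fx : XS (au a) → US (bb a)) := by
  refine Continuous.prodMk ?_ ?_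
  · refine continuous_pi fun i => continuous_pi fun v => ?_
    cases i with
    | zero => exact (continuous_apply (v (1 : Fin 2))).comp ((continuous_apply (v (0 : Fin 2))).comp continuous_fst)
    | succ j => exact (continuous_apply _).comp ((continuous_apply (2 * j)).comp continuous_snd)
  · refine continuous_pi fun j => continuous_pi fun u => ?_
    exact (continuous_apply _).comp ((continuous_apply (2 * j + 1)).comp continuous_snd)

theorem fx_iso {x x' : XS (au a)} {σ : Equiv.Perm ℕ} (h : XI σ x x') : UIso (fx x) (fx x') := by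
  refine ⟨σ, fun i v => ?_, fun i u => h.2 (2 * i + 1) fun _ => u⟩
  cases i with
  | zero => exact h.1 (v (0 : Fin 2)) (v (1 : Fin 2))
  | succ j => exact h.2 (2 * j) fun t => v (Fin.cast (au0 j) t)

theorem x_cong (x : XS (au a)) {m j : ℕ} (hm : m = j) (w : Fin (au a m) → ℕ)
    (v : Fin (au a j) → ℕ) (h : ∀ t, w t = v (Fin.cast (by rw [hm]) t)) : x.2 m w = x.2 j v := by
  subst hm
  have e : w = v := funext h
  rw [e]

theorem tx_fx (x : XS (au a)) : tx (fx x) = x := by
  refine Prod.ext rfl ?_
  funext j v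
  unfold tx
  simp only
  split_ifs with h
  · show x.2 (2 * (j / 2)) (fun t => v (Fin.cast _ (Fin.cast _ t))) = x.2 j v
    exact x_cong x (by omega) _ _ fun t => rfl
  · show x.2 (2 * (j / 2) + 1) (fun _ => v (Fin.cast _ (0 : Fin 1))) = x.2 j v
    refine x_cong x (by omega) _ _ fun t => ?_
    congr 1
    apply Fin.ext
    have h1 : au a j = 1 := by
      unfold au
      rw [if_neg h]
    have h2 := t.2
    have h3 : au a (2 * (j / 2) + 1) = 1 := au1 _
    simp only [Fin.val_cast, Fin.val_zero]
    omega

theorem tx_iso {y y' : US (bb a)} (h : UIso y y') : ∃ σ, XI σ (tx y) (tx y') := by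
  obtain ⟨σ, h1, h2⟩ := h
  refine ⟨σ, fun u v => ?_, fun j t => ?_⟩
  · show y'.1 0 ![σ u, σ v] = y.1 0 ![u, v]
    rw [← h1 0 ![u, v]]
    have e : (![σ u, σ v] : Fin 2 → ℕ) = ⇑σ ∘ ![u, v] := by
      funext t
      fin_cases t <;> rfl
    exact congrArg (y'.1 0) e
  · unfold tx
    simp only
    split_ifs with h
    · exact h1 (j / 2 + 1) _
    · exact h2 _ _

theorem sr_fx {x : XS (au a)} {y : ℕ} {s s' : Fin k → ℕ}
    (h : SameRow (un (fx x).1) k y s s') : SameRow x k y s s' := by
  intro j f h1 h2
  rcases Nat.mod_two_eq_zero_or_one j with hj | hj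
  · obtain ⟨i, rfl⟩ : ∃ i, j = 2 * i := ⟨j / 2, by omega⟩
    have h3 := h i (fun t => f (Fin.cast (au0 i).symm t)) (by
      obtain ⟨t, b, hb⟩ := h1
      exact ⟨Fin.cast (au0 i) t, b, hb⟩) fun t b hb => h2 _ b hb
    exact h3
  · obtain ⟨i, rfl⟩ : ∃ i, j = 2 * i + 1 := ⟨j / 2, by omega⟩
    obtain ⟨t, b, hb⟩ := h1
    have e : ∀ t', t' = t := by
      intro t'
      apply Fin.ext
      have h3 : au a (2 * i + 1) = 1 := au1 _
      have h4 := t.2
      have h5 := t'.2
      omega
    have e2 : (fun i => Sum.elim s id (f i)) = fun i => Sum.elim s' id (f i) := by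
      funext t'
      rw [e t', hb]
      rfl
    rw [e2]

theorem lf_fx {x : XS (au a)} (h : LocFin k (un (fx x).1)) : LocFin k x := by
  intro p q
  obtain ⟨n, hn⟩ := h p q
  refine ⟨n, fun y h1 h2 => ?_⟩
  obtain ⟨S, hS⟩ := hn y h1 h2
  refine ⟨S, fun s hs => ?_⟩
  obtain ⟨m, hm⟩ := hS s hs
  exact ⟨m, sr_fx hm⟩

/-- the dichotomy for expansions by unary predicates -/
theorem vcu_Vk (ha : ∀ j, a j ≤ k + 1) : VCu (Vk k : RS (bb a) → Prop) := by
  intro B hBm hBi hB
  rcases vc_X k (au_le ha) (fx ⁻¹' B) (m_fx hBm)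
    (fun x hx x' σ h => (hBi _ _ (fx_iso h)).1 hx)
    (fun x hx => ⟨(hB _ hx).1, lf_fx (hB _ hx).2⟩) with ⟨f, hf⟩ | ⟨g, hg1, hg2, hg3⟩
  · left
    refine ⟨fun n => fx (f n), fun y hy => ?_⟩
    obtain ⟨n, σ, h⟩ := hf (tx y) (by rw [mem_preimage, fx_tx]; exact hy)
    refine ⟨n, ?_⟩
    have h1 := fx_iso h
    rwa [fx_tx] at h1
  · right
    refine ⟨fun c => fx (g c), c_fx.comp hg1, hg2, fun c d h => hg3 c d ?_⟩
    have h1 := tx_iso h
    rwa [tx_fx, tx_fx] at h1

/-! ### The class is Borel and invariant -/

theorem m_un1 (m n : ℕ) : Measurable fun z : RS (bb a) => (un z).1 m n = true := by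
  refine measurableSet_setOfPred.1 ?_
  have h : Measurable fun z : RS (bb a) => z 0 ![m, n] :=
    (measurable_pi_apply _).comp (measurable_pi_apply 0)
  exact h (MeasurableSet.singleton true)

theorem m_un1f (m n : ℕ) : Measurable fun z : RS (bb a) => (un z).1 m n = false := by
  refine measurableSet_setOfPred.1 ?_
  have h : Measurable fun z : RS (bb a) => z 0 ![m, n] :=
    (measurable_pi_apply _).comp (measurable_pi_apply 0)
  exact h (MeasurableSet.singleton false)

theorem m_un2 (j : ℕ) (v w : Fin (a j) → ℕ) :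
    Measurable fun z : RS (bb a) => (un z).2 j v = (un z).2 j w := by
  refine measurableSet_setOfPred.1 ?_
  have h : ∀ v : Fin (a j) → ℕ, Measurable fun z : RS (bb a) => (un z).2 j v := fun v =>
    (measurable_pi_apply v).comp (measurable_pi_apply (j + 1))
  exact measurableSet_eq_fun (h v) (h w)

theorem m_Vk : MeasurableSet {z : RS (bb a) | Vk k z} := by
  have h1 : Measurable fun z : RS (bb a) => SL (un z).1 := by
    have e : (fun z : RS (bb a) => SL (un z).1) = fun z : RS (bb a) =>
        (∀ m, (un z).1 m m = false) ∧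
        (∀ m n p, (un z).1 m n = true → (un z).1 n p = true → (un z).1 m p = true) ∧
        ∀ m n, m = n ∨ (un z).1 m n = true ∨ (un z).1 n m = true := by
      funext z
      apply propext
      constructor
      · intro h
        exact ⟨h.irr, h.tr, h.tot⟩
      · rintro ⟨h1, h2, h3⟩
        exact ⟨h1, h2, h3⟩
    rw [e]
    exact (Measurable.forall fun m => m_un1f m m).and ((Measurable.forall fun m =>
      Measurable.forall fun n => Measurable.forall fun p => (m_un1 m n).imp ((m_un1 n p).imp
      (m_un1 m p))).and (Measurable.forall fun m => Measurable.forall fun n =>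
      measurable_const.or ((m_un1 m n).or (m_un1 n m))))
  have h2 : Measurable fun z : RS (bb a) => LocFin k (un z) := by
    unfold LocFin SameRow
    refine Measurable.forall fun p => Measurable.forall fun q => Measurable.exists fun n =>
      Measurable.forall fun y => (m_un1f y p).imp ((m_un1f q y).imp ?_)
    refine Measurable.exists fun S => Measurable.forall fun s => (Measurable.forall fun i =>
      m_un1 _ _).imp (Measurable.exists fun m => ?_)
    refine Measurable.forall fun j => Measurable.forall fun f => measurable_const.imp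
      ((Measurable.forall fun i => Measurable.forall fun b => measurable_const.imp
        (m_un1f _ _)).imp (m_un2 j _ _))
  exact measurableSet_setOfPred.2 (h1.and h2)

end Pool.Agent.N643.MN
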